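import Mathlib

/-!
# Locally polynomially integrable convex hypersurfaces: a counterexample in dimension 5

The hypersurface `M` of `ℝ⁵` is the graph
`x₂ = 1 / (x₀² x₁) + x₃² / x₀ + x₄² / x₁` over `x₀, x₁ > 0`, that is, the set
`x₀ (x₀ x₁ x₂ - x₁ x₃² - x₀ x₄²) = 1` in the Vinberg cone. It is smooth, strictly convex,
all its sections by hyperplanes parallel to a tangent hyperplane have volume
`A t² + B t³ + C t⁴`, and it lies in no quadric.
-/

open MeasureTheory Set Topology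
open scoped ENNReal RealInnerProductSpace ContDiff MeasureTheory

namespace Pool.Agent.Results.MP_bfe3ea_gt.VinbergCone

/-! ### Definitions used in the statement -/

/-- Euclidean `n`-space. -/
abbrev E (n : ℕ) : Type := EuclideanSpace ℝ (Fin n)

/-- The affine hyperplane orthogonal to `v` at signed distance `t` from `a` (for a unit vector `v`).
When `v` is the unit normal of `M` at `a`, this is `T_a(M) + t v`. -/
def hyperplane {n : ℕ} (a v : E n) (t : ℝ) : Set (E n) := {x | ⟪v, x - a⟫ = t}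

/-- Near the point `a` the set `M` is a smooth embedded hypersurface (the zero set, in an open
neighbourhood `U` of `a`, of a smooth function `g` with nonzero gradient at `a`) and the unit
vector `v` is orthogonal to its tangent hyperplane at `a` (the gradient of `g` at `a` is `c • v`
with `c ≠ 0`). -/
def IsUnitNormal {n : ℕ} (M : Set (E n)) (a v : E n) : Prop :=
  ‖v‖ = 1 ∧ ∃ (U : Set (E n)) (g : E n → ℝ) (c : ℝ), IsOpen U ∧ a ∈ U ∧ ContDiffOn ℝ ∞ g U ∧
    c ≠ 0 ∧ HasGradientAt g (c • v) a ∧ M ∩ U = {x ∈ U | g x = 0}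

/-- `v` is the unit normal of `M` at `a` pointing into the side containing `M`, where `M` lies on
one side of its tangent hyperplane at `a` and meets it only at `a`. -/
def IsInwardNormal {n : ℕ} (M : Set (E n)) (a v : E n) : Prop :=
  IsUnitNormal M a v ∧ ∀ x ∈ M, x ≠ a → 0 < ⟪v, x - a⟫

/-- Smooth strictly convex hypersurfaces: connected smooth embedded hypersurfaces such that for
every `a ∈ M`, `M` lies on one side of the tangent hyperplane at `a` and meets it only at `a`. -/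
def IsSmoothStrictlyConvexHypersurface {n : ℕ} (M : Set (E n)) : Prop :=
  IsConnected M ∧ ∀ a ∈ M, ∃ v, IsInwardNormal M a v

/-- `Ω` is a bounded domain of the hyperplane `H` (nonempty, connected, relatively open) whose
boundary relative to `H` is `S`. -/
def IsDomainBoundedBy {n : ℕ} (H S Ω : Set (E n)) : Prop :=
  (∃ O, IsOpen O ∧ Ω = O ∩ H) ∧ IsConnected Ω ∧ Bornology.IsBounded Ω ∧ closure Ω \ Ω = S

/-- Local polynomial integrability: for every `a ∈ M` there is a polynomial `P` such that for all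
small `r > 0` and all small `t > 0` (in terms of `r`), the part of `M ∩ (T_a(M) + t v)` in the ball
of radius `r` around `a` bounds a domain `Ω` of `T_a(M) + t v` whose `(n-1)`-dimensional volume is
`P t`. -/
def LocallyPolynomiallyIntegrable {n : ℕ} (M : Set (E n)) : Prop :=
  ∀ a ∈ M, ∃ v, IsInwardNormal M a v ∧ ∃ P : Polynomial ℝ, ∃ r₀ > 0, ∀ r, 0 < r → r ≤ r₀ →
    ∃ ε > 0, ∀ t, 0 < t → t < ε → ∃ Ω : Set (E n),
      IsDomainBoundedBy (hyperplane a v t) (M ∩ Metric.ball a r ∩ hyperplane a v t) Ω ∧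
      μHE[n - 1] Ω = ENNReal.ofReal (P.eval t)

/-! ### One-dimensional substitutions and a volume -/

/-- the inverse of `w ↦ w - b / w` -/
noncomputable def inv (b u : ℝ) : ℝ := (u + Real.sqrt (u ^ 2 + 4 * b)) / 2

lemma inv_pos {b : ℝ} (hb : 0 < b) (u : ℝ) : 0 < inv b u := by
  unfold inv
  have h1 : |u| < Real.sqrt (u ^ 2 + 4 * b) := by
    apply Real.lt_sqrt_of_sq_lt
    rw [sq_abs]; linarith
  have := neg_abs_le u
  linarith

lemma inv_mul_neg {b : ℝ} (hb : 0 < b) (u : ℝ) : inv b u * inv b (-u) = b := by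
  unfold inv
  have h0 : (0:ℝ) ≤ u ^ 2 + 4 * b := by positivity
  have h1 := Real.mul_self_sqrt h0
  rw [neg_sq]
  nlinarith

lemma inv_add_neg (b u : ℝ) : inv b u + inv b (-u) = Real.sqrt (u ^ 2 + 4 * b) := by
  unfold inv
  rw [neg_sq]; ring

lemma inv_sub_neg (b u : ℝ) : inv b u - inv b (-u) = u := by
  unfold inv
  rw [neg_sq]; ring

lemma inv_sub_div {b : ℝ} (hb : 0 < b) (u : ℝ) : inv b u - b / inv b u = u := by
  have h := inv_mul_neg hb u
  have hp := inv_pos hb u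
  have : b / inv b u = inv b (-u) := by
    rw [div_eq_iff hp.ne']; linarith
  rw [this]; exact inv_sub_neg b u

lemma inv_of_sub {b : ℝ} (hb : 0 < b) {w : ℝ} (hw : 0 < w) : inv b (w - b / w) = w := by
  unfold inv
  have h1 : (w - b / w) ^ 2 + 4 * b = (w + b / w) ^ 2 := by
    field_simp; ring
  rw [h1, Real.sqrt_sq (by positivity)]
  ring

lemma range_inv {b : ℝ} (hb : 0 < b) : inv b '' univ = Ioi 0 := by
  ext w
  constructor
  · rintro ⟨u, -, rfl⟩
    exact inv_pos hb u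
  · intro hw
    exact ⟨w - b / w, mem_univ _, inv_of_sub hb hw⟩

lemma injOn_inv {b : ℝ} (hb : 0 < b) : InjOn (inv b) univ := by
  intro u _ v _ h
  rw [← inv_sub_div hb u, ← inv_sub_div hb v, h]

lemma hasDerivAt_inv {b : ℝ} (hb : 0 < b) (u : ℝ) :
    HasDerivAt (inv b) (inv b u / Real.sqrt (u ^ 2 + 4 * b)) u := by
  have h0 : 0 < u ^ 2 + 4 * b := by positivity
  have h1 : HasDerivAt (fun u : ℝ => u ^ 2 + 4 * b) (2 * u) u := by
    simpa using (hasDerivAt_pow 2 u).add_const (4 * b)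
  have h2 := (h1.sqrt h0.ne')
  have h3 := ((hasDerivAt_id u).add h2).div_const 2
  have hs : 0 < Real.sqrt (u ^ 2 + 4 * b) := Real.sqrt_pos.mpr h0
  have h4 : inv b u / Real.sqrt (u ^ 2 + 4 * b) =
      (1 + 2 * u / (2 * Real.sqrt (u ^ 2 + 4 * b))) / 2 := by
    unfold inv
    field_simp
    ring
  rw [h4]
  exact h3

lemma weight_sum {b : ℝ} (hb : 0 < b) (A B u : ℝ) :
    inv b u / Real.sqrt (u ^ 2 + 4 * b) * (A + B * inv b u ^ 2) +
      inv b (-u) / Real.sqrt (u ^ 2 + 4 * b) * (A + B * inv b (-u) ^ 2) = A + B * (u ^ 2 + b) := by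
  have h0 : 0 < u ^ 2 + 4 * b := by positivity
  set D := Real.sqrt (u ^ 2 + 4 * b) with hD
  have hs : 0 < D := Real.sqrt_pos.mpr h0
  have hD2 : D ^ 2 = u ^ 2 + 4 * b := Real.sq_sqrt h0.le
  have h1 := inv_mul_neg hb u
  have h2 := inv_add_neg b u
  rw [← hD] at h2
  set x := inv b u
  set y := inv b (-u)
  have h3 : x / D * (A + B * x ^ 2) + y / D * (A + B * y ^ 2) =
      ((x + y) * A + B * ((x + y) ^ 3 - 3 * (x * y) * (x + y))) / D := by
    field_simp; ring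
  rw [h3, h2, h1]
  field_simp
  rw [hD2]; ring

lemma lintegral_fold (g : ℝ → ℝ≥0∞) (hg : Measurable g) :
    ∫⁻ u, g u = ∫⁻ u in Ioi (0:ℝ), (g u + g (-u)) := by
  have h1 : ∫⁻ u, g u = (∫⁻ u in Ioi (0:ℝ), g u) + ∫⁻ u in Iic (0:ℝ), g u := by
    have := lintegral_add_compl (μ := (volume : Measure ℝ)) g (measurableSet_Ioi (a := (0:ℝ)))
    rw [← this, compl_Ioi]
  have h2 : ∫⁻ u in Iic (0:ℝ), g u = ∫⁻ u in Ioi (0:ℝ), g (-u) := by
    rw [← setLIntegral_congr (Iio_ae_eq_Iic (a := (0:ℝ)) (μ := (volume : Measure ℝ)))]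
    have hmp := Measure.measurePreserving_neg (volume : Measure ℝ)
    have := hmp.setLIntegral_comp_preimage (s := Iio (0:ℝ)) measurableSet_Iio hg
    rw [← this]
    congr 1
    simp
  rw [h1, h2, ← lintegral_add_left hg]

/-- Cauchy-Schloemilch substitution with weight `A + B w^2`. -/
lemma cs {b : ℝ} (hb : 0 < b) {A B : ℝ} (hA : 0 ≤ A) (hB : 0 ≤ B) (φ : ℝ → ℝ≥0∞)
    (hφ : Measurable φ) :
    ∫⁻ w in Ioi (0:ℝ), ENNReal.ofReal (A + B * w ^ 2) * φ ((w - b / w) ^ 2) =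
      ∫⁻ u in Ioi (0:ℝ), ENNReal.ofReal (A + B * (u ^ 2 + b)) * φ (u ^ 2) := by
  have hmeas : Measurable (inv b) := by
    unfold inv
    fun_prop
  conv_lhs => rw [← range_inv hb]
  rw [lintegral_image_eq_lintegral_abs_deriv_mul MeasurableSet.univ
    (fun x _ => (hasDerivAt_inv hb x).hasDerivWithinAt) (injOn_inv hb)]
  have key : ∀ u : ℝ, ENNReal.ofReal |inv b u / Real.sqrt (u ^ 2 + 4 * b)| *
      (ENNReal.ofReal (A + B * inv b u ^ 2) * φ ((inv b u - b / inv b u) ^ 2)) =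
      ENNReal.ofReal (inv b u / Real.sqrt (u ^ 2 + 4 * b) * (A + B * inv b u ^ 2)) * φ (u ^ 2) := by
    intro u
    have hp := inv_pos hb u
    have h0 : 0 < Real.sqrt (u ^ 2 + 4 * b) := Real.sqrt_pos.mpr (by positivity)
    rw [inv_sub_div hb, abs_of_nonneg (by positivity), ← mul_assoc,
      ← ENNReal.ofReal_mul (by positivity)]
  simp_rw [key]
  rw [setLIntegral_univ, lintegral_fold]
  · refine setLIntegral_congr_fun (measurableSet_Ioi (a := (0:ℝ))) fun u _ => ?_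
    have hp := inv_pos hb u
    have hp' := inv_pos hb (-u)
    have h0 : 0 < Real.sqrt (u ^ 2 + 4 * b) := Real.sqrt_pos.mpr (by positivity)
    simp only [neg_sq]
    rw [← add_mul, ← ENNReal.ofReal_add (by positivity) (by positivity), weight_sum hb]
  · fun_prop

/-- substitution `z = w ^ 2` -/
lemma lintegral_sq (g : ℝ → ℝ≥0∞) :
    ∫⁻ z in Ioi (0:ℝ), g z = ∫⁻ w in Ioi (0:ℝ), ENNReal.ofReal (2 * w) * g (w ^ 2) := by
  have him : (fun w : ℝ => w ^ 2) '' Ioi 0 = Ioi 0 := by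
    ext z
    constructor
    · rintro ⟨w, hw, rfl⟩
      exact pow_pos (mem_Ioi.mp hw) 2
    · intro hz
      exact ⟨Real.sqrt z, Real.sqrt_pos.mpr hz, Real.sq_sqrt (le_of_lt hz)⟩
  conv_lhs => rw [← him]
  rw [lintegral_image_eq_lintegral_abs_deriv_mul (f' := fun w => 2 * w) measurableSet_Ioi]
  · refine setLIntegral_congr_fun measurableSet_Ioi fun w hw => ?_
    have : (0:ℝ) < w := hw
    rw [abs_of_pos (by positivity)]
  · intro x _
    simpa using (hasDerivAt_pow 2 x).hasDerivWithinAt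
  · intro x hx y hy hxy
    exact (sq_eq_sq₀ (le_of_lt hx) (le_of_lt hy)).mp hxy

/-- scaling -/
lemma lintegral_scale {l : ℝ} (hl : 0 < l) (g : ℝ → ℝ≥0∞) :
    ∫⁻ z in Ioi (0:ℝ), g z = ENNReal.ofReal l * ∫⁻ w in Ioi (0:ℝ), g (l * w) := by
  have him : (fun w : ℝ => l * w) '' Ioi 0 = Ioi 0 := by
    ext z
    constructor
    · rintro ⟨w, hw, rfl⟩
      exact mul_pos hl hw
    · intro hz
      exact ⟨z / l, div_pos hz hl, by field_simp⟩
  conv_lhs => rw [← him]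
  rw [lintegral_image_eq_lintegral_abs_deriv_mul (f' := fun w => l) measurableSet_Ioi]
  · rw [abs_of_pos hl, lintegral_const_mul' _ _ ENNReal.ofReal_ne_top]
  · intro x _
    simpa using ((hasDerivAt_id x).const_mul l).hasDerivWithinAt
  · intro x hx y hy hxy
    exact mul_left_cancel₀ hl.ne' hxy


/-- area of the unit disc -/
noncomputable def c0 : ℝ≥0∞ := volume {z : ℝ × ℝ | z.1 ^ 2 + z.2 ^ 2 < 1}

lemma c0_ne_top : c0 ≠ ⊤ := by
  unfold c0
  refine ne_top_of_le_ne_top ?_ (measure_mono (t := Icc (-1:ℝ) 1 ×ˢ Icc (-1:ℝ) 1) ?_)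
  · rw [Measure.volume_eq_prod, Measure.prod_prod]
    simp [ENNReal.mul_eq_top]
  · rintro ⟨p, q⟩ hz
    simp only [mem_ofPred_eq] at hz
    simp only [mem_prod, mem_Icc]
    refine ⟨⟨?_, ?_⟩, ?_, ?_⟩ <;> nlinarith [sq_nonneg p, sq_nonneg q]

lemma ellipse (x y S : ℝ) (hx : 0 < x) (hy : 0 < y) :
    volume {z : ℝ × ℝ | z.1 ^ 2 / x + z.2 ^ 2 / y < S} =
      ENNReal.ofReal (Real.sqrt x * Real.sqrt y * S) * c0 := by
  rcases le_or_gt S 0 with hS | hS
  · have h1 : {z : ℝ × ℝ | z.1 ^ 2 / x + z.2 ^ 2 / y < S} = ∅ := by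
      ext z
      simp only [mem_ofPred_eq, mem_empty_iff_false, iff_false, not_lt]
      have : 0 ≤ z.1 ^ 2 / x + z.2 ^ 2 / y := by positivity
      linarith
    rw [h1, measure_empty, ENNReal.ofReal_of_nonpos, zero_mul]
    exact mul_nonpos_of_nonneg_of_nonpos (by positivity) hS
  · set a := Real.sqrt (x * S)
    set b := Real.sqrt (y * S)
    have ha : 0 < a := Real.sqrt_pos.mpr (by positivity)
    have hb : 0 < b := Real.sqrt_pos.mpr (by positivity)
    have ha2 : a ^ 2 = x * S := Real.sq_sqrt (by positivity)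
    have hb2 : b ^ 2 = y * S := Real.sq_sqrt (by positivity)
    let f : ℝ × ℝ →ₗ[ℝ] ℝ × ℝ := LinearMap.prodMap (a • LinearMap.id) (b • LinearMap.id)
    have hf : ∀ z : ℝ × ℝ, f z = (a * z.1, b * z.2) := fun z => rfl
    have him : {z : ℝ × ℝ | z.1 ^ 2 / x + z.2 ^ 2 / y < S} =
        f '' {z : ℝ × ℝ | z.1 ^ 2 + z.2 ^ 2 < 1} := by
      ext ⟨p, q⟩
      simp only [mem_ofPred_eq, mem_image, hf]
      constructor
      · intro h
        refine ⟨(p / a, q / b), ?_, ?_⟩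
        · simp only
          rw [div_pow, div_pow, ha2, hb2]
          have : p ^ 2 / (x * S) + q ^ 2 / (y * S) = (p ^ 2 / x + q ^ 2 / y) / S := by
            field_simp
          rw [this, div_lt_one hS]
          exact h
        · simp only [Prod.mk.injEq]
          constructor <;> field_simp
      · rintro ⟨⟨p', q'⟩, h, he⟩
        simp only [Prod.mk.injEq] at he
        obtain ⟨rfl, rfl⟩ := he
        simp only at h
        rw [mul_pow, mul_pow, ha2, hb2]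
        have : x * S * p' ^ 2 / x + y * S * q' ^ 2 / y = S * (p' ^ 2 + q' ^ 2) := by
          field_simp
        rw [this]
        nlinarith
    rw [him, Measure.addHaar_image_linearMap]
    have hdet : LinearMap.det f = a * b := by
      rw [LinearMap.det_prodMap]
      simp
    rw [hdet, abs_of_pos (by positivity)]
    have : a * b = Real.sqrt x * Real.sqrt y * S := by
      have h1 : a = Real.sqrt x * Real.sqrt S := Real.sqrt_mul hx.le S
      have h2 : b = Real.sqrt y * Real.sqrt S := Real.sqrt_mul hy.le S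
      have h3 : Real.sqrt S * Real.sqrt S = S := Real.mul_self_sqrt hS.le
      rw [h1, h2]
      calc _ = Real.sqrt x * Real.sqrt y * (Real.sqrt S * Real.sqrt S) := by ring
        _ = _ := by rw [h3]
    rw [this]
    rfl

noncomputable def h (x y : ℝ) : ℝ := (1 - x * y) ^ 2 / (x ^ 2 * y) + 2 * (x - 1) ^ 2 / x

/-- the normalised region -/
def R (T : ℝ) : Set (ℝ × ℝ × ℝ × ℝ) :=
  {z | 0 < z.1 ∧ 0 < z.2.1 ∧ z.2.2.1 ^ 2 / z.1 + z.2.2.2 ^ 2 / z.2.1 + h z.1 z.2.1 < T}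

lemma measurableSet_R (T : ℝ) : MeasurableSet (R T) := by
  have h1 : MeasurableSet {z : ℝ × ℝ × ℝ × ℝ | (0:ℝ) < z.1} :=
    measurableSet_lt measurable_const measurable_fst
  have h2 : MeasurableSet {z : ℝ × ℝ × ℝ × ℝ | (0:ℝ) < z.2.1} :=
    measurableSet_lt measurable_const (by fun_prop)
  have h3 : MeasurableSet {z : ℝ × ℝ × ℝ × ℝ |
      z.2.2.1 ^ 2 / z.1 + z.2.2.2 ^ 2 / z.2.1 + h z.1 z.2.1 < T} := by
    unfold h
    exact measurableSet_lt (by fun_prop) measurable_const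
  exact h1.inter (h2.inter h3)

lemma volume_R_aux (T : ℝ) :
    volume (R T) = ∫⁻ x in Ioi (0:ℝ), ∫⁻ y in Ioi (0:ℝ),
      ENNReal.ofReal (Real.sqrt x * Real.sqrt y * (T - h x y)) * c0 := by
  rw [Measure.volume_eq_prod, Measure.prod_apply (measurableSet_R T),
    ← lintegral_indicator measurableSet_Ioi]
  congr 1
  ext x
  by_cases hx : 0 < x
  · rw [indicator_of_mem (mem_Ioi.mpr hx), Measure.volume_eq_prod,
      Measure.prod_apply (measurable_prodMk_left (measurableSet_R T)),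
      ← lintegral_indicator measurableSet_Ioi]
    congr 1
    ext y
    by_cases hy : 0 < y
    · rw [indicator_of_mem (mem_Ioi.mpr hy), ← ellipse x y _ hx hy]
      congr 1
      ext z
      simp only [R, mem_preimage, mem_ofPred_eq, hx, hy, true_and]
      constructor <;> intro h <;> linarith
    · rw [indicator_of_notMem (by simpa using hy)]
      have : Prod.mk y ⁻¹' (Prod.mk x ⁻¹' R T) = ∅ := by
        ext z
        simp [R, hy]
      rw [this, measure_empty]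
  · rw [indicator_of_notMem (by simpa using hx)]
    have : Prod.mk x ⁻¹' R T = ∅ := by
      ext z
      simp [R, hx]
    rw [this, measure_empty]

lemma h_sq {r w : ℝ} (hr : 0 < r) (hw : 0 < w) :
    h (r ^ 2) (w ^ 2) = (w - (1 / r ^ 2) / w) ^ 2 + 2 * (r - 1 / r) ^ 2 := by
  unfold h
  field_simp
  ring

lemma inner_int (T : ℝ) {r : ℝ} (hr : 0 < r) :
    ∫⁻ y in Ioi (0:ℝ), ENNReal.ofReal (Real.sqrt (r ^ 2) * Real.sqrt y * (T - h (r ^ 2) y)) =
      ∫⁻ u in Ioi (0:ℝ), ENNReal.ofReal (2 * r * (u ^ 2 + 1 / r ^ 2)) *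
        ENNReal.ofReal (T - u ^ 2 - 2 * (r - 1 / r) ^ 2) := by
  rw [lintegral_sq]
  have key : ∀ w ∈ Ioi (0:ℝ), ENNReal.ofReal (2 * w) *
      ENNReal.ofReal (Real.sqrt (r ^ 2) * Real.sqrt (w ^ 2) * (T - h (r ^ 2) (w ^ 2))) =
      ENNReal.ofReal (0 + (2 * r) * w ^ 2) *
        (fun s => ENNReal.ofReal (T - s - 2 * (r - 1 / r) ^ 2)) ((w - (1 / r ^ 2) / w) ^ 2) := by
    intro w hw
    have hw : 0 < w := hw
    simp only
    rw [h_sq hr hw, Real.sqrt_sq hr.le, Real.sqrt_sq hw.le, ← ENNReal.ofReal_mul (by positivity),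
      ← ENNReal.ofReal_mul (by positivity)]
    congr 1
    ring
  rw [setLIntegral_congr_fun measurableSet_Ioi key,
    cs (b := 1 / r ^ 2) (by positivity) le_rfl (by positivity)
      (fun s => ENNReal.ofReal (T - s - 2 * (r - 1 / r) ^ 2)) (by fun_prop)]
  simp only [zero_add]

lemma outer_int (T u : ℝ) :
    ∫⁻ r in Ioi (0:ℝ), ENNReal.ofReal (2 * r) *
      (ENNReal.ofReal (2 * r * (u ^ 2 + 1 / r ^ 2)) *
        ENNReal.ofReal (T - u ^ 2 - 2 * (r - 1 / r) ^ 2)) =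
      ∫⁻ v in Ioi (0:ℝ),
      ENNReal.ofReal (4 + 4 * u ^ 2 * (v ^ 2 + 1)) * ENNReal.ofReal (T - u ^ 2 - 2 * v ^ 2) := by
  have key : ∀ r ∈ Ioi (0:ℝ), ENNReal.ofReal (2 * r) *
      (ENNReal.ofReal (2 * r * (u ^ 2 + 1 / r ^ 2)) *
        ENNReal.ofReal (T - u ^ 2 - 2 * (r - 1 / r) ^ 2)) =
      ENNReal.ofReal (4 + (4 * u ^ 2) * r ^ 2) *
        (fun s => ENNReal.ofReal (T - u ^ 2 - 2 * s)) ((r - 1 / r) ^ 2) := by
    intro r hr
    have hr : 0 < r := hr
    simp only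
    rw [← mul_assoc, ← ENNReal.ofReal_mul (by positivity)]
    congr 2
    field_simp
    ring
  rw [setLIntegral_congr_fun measurableSet_Ioi key,
    cs (b := 1) one_pos (by positivity) (by positivity)
      (fun s => ENNReal.ofReal (T - u ^ 2 - 2 * s)) (by fun_prop)]

lemma volume_R_double (T : ℝ) :
    volume (R T) = c0 * ∫⁻ u in Ioi (0:ℝ), ∫⁻ v in Ioi (0:ℝ),
      ENNReal.ofReal (4 + 4 * u ^ 2 * (v ^ 2 + 1)) * ENNReal.ofReal (T - u ^ 2 - 2 * v ^ 2) := by
  rw [volume_R_aux]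
  have h1 : ∀ x : ℝ, ∫⁻ y in Ioi (0:ℝ),
      ENNReal.ofReal (Real.sqrt x * Real.sqrt y * (T - h x y)) * c0 =
      (∫⁻ y in Ioi (0:ℝ), ENNReal.ofReal (Real.sqrt x * Real.sqrt y * (T - h x y))) * c0 :=
    fun x => lintegral_mul_const' _ _ c0_ne_top
  simp_rw [h1]
  rw [lintegral_mul_const' _ _ c0_ne_top, mul_comm, lintegral_sq]
  congr 1
  have h2 : ∀ r ∈ Ioi (0:ℝ), ENNReal.ofReal (2 * r) *
      (∫⁻ y in Ioi (0:ℝ), ENNReal.ofReal (Real.sqrt (r ^ 2) * Real.sqrt y * (T - h (r ^ 2) y))) =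
      ∫⁻ u in Ioi (0:ℝ), ENNReal.ofReal (2 * r) *
      (ENNReal.ofReal (2 * r * (u ^ 2 + 1 / r ^ 2)) *
        ENNReal.ofReal (T - u ^ 2 - 2 * (r - 1 / r) ^ 2)) := by
    intro r hr
    rw [inner_int T hr, lintegral_const_mul' _ _ ENNReal.ofReal_ne_top]
  rw [setLIntegral_congr_fun measurableSet_Ioi h2, lintegral_lintegral_swap]
  · simp_rw [outer_int]
  · apply Measurable.aemeasurable
    fun_prop

/-- a moment of the section function -/
noncomputable def J (m : ℝ → ℝ → ℝ) : ℝ≥0∞ :=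
  ∫⁻ u in Ioi (0:ℝ), ∫⁻ v in Ioi (0:ℝ),
    ENNReal.ofReal (m u v) * ENNReal.ofReal (1 - u ^ 2 - 2 * v ^ 2)

lemma J_ne_top (m : ℝ → ℝ → ℝ) (hm : ∀ u v : ℝ, 0 < u → u < 1 → 0 < v → v < 1 → m u v ≤ 1) :
    J m ≠ ⊤ := by
  unfold J
  have key : ∀ u ∈ Ioi (0:ℝ), ∫⁻ v in Ioi (0:ℝ),
      ENNReal.ofReal (m u v) * ENNReal.ofReal (1 - u ^ 2 - 2 * v ^ 2) ≤
      (Ioo (0:ℝ) 1).indicator (fun _ => 1) u := by
    intro u hu
    have hu : 0 < u := hu
    by_cases hu1 : u < 1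
    · rw [indicator_of_mem (mem_Ioo.mpr ⟨hu, hu1⟩)]
      calc _ ≤ ∫⁻ v in Ioi (0:ℝ), (Ioo (0:ℝ) 1).indicator (fun _ => (1:ℝ≥0∞)) v := by
            refine setLIntegral_mono' measurableSet_Ioi fun v hv => ?_
            have hv : 0 < v := hv
            by_cases hv1 : v < 1
            · rw [indicator_of_mem (mem_Ioo.mpr ⟨hv, hv1⟩)]
              have h1 := ENNReal.ofReal_le_one.mpr (hm u v hu hu1 hv hv1)
              have h2 : ENNReal.ofReal (1 - u ^ 2 - 2 * v ^ 2) ≤ 1 :=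
                ENNReal.ofReal_le_one.mpr (by nlinarith [sq_nonneg u, sq_nonneg v])
              exact mul_le_one' h1 h2
            · have : ENNReal.ofReal (1 - u ^ 2 - 2 * v ^ 2) = 0 :=
                ENNReal.ofReal_of_nonpos (by nlinarith [sq_nonneg u])
              rw [this, mul_zero]
              exact zero_le
        _ ≤ ∫⁻ v, (Ioo (0:ℝ) 1).indicator (fun _ => (1:ℝ≥0∞)) v := setLIntegral_le_lintegral _ _
        _ = 1 := by
            rw [lintegral_indicator measurableSet_Ioo]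
            simp
    · rw [indicator_of_notMem (by simp [hu1])]
      apply le_of_eq
      rw [← lintegral_zero (μ := volume.restrict (Ioi (0:ℝ)))]
      congr 1
      ext v
      have : ENNReal.ofReal (1 - u ^ 2 - 2 * v ^ 2) = 0 :=
        ENNReal.ofReal_of_nonpos (by nlinarith [sq_nonneg v])
      rw [this, mul_zero]
  refine ne_top_of_le_ne_top ?_ (setLIntegral_mono' measurableSet_Ioi key)
  refine ne_top_of_le_ne_top ?_ (setLIntegral_le_lintegral _ _)
  rw [lintegral_indicator measurableSet_Ioo]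
  simp

lemma volume_R_poly {T : ℝ} (hT : 0 < T) :
    volume (R T) = c0 * (ENNReal.ofReal (4 * T ^ 2) * J (fun _ _ => 1) +
      ENNReal.ofReal (4 * T ^ 3) * J (fun u _ => u ^ 2) +
      ENNReal.ofReal (4 * T ^ 4) * J (fun u v => u ^ 2 * v ^ 2)) := by
  rw [volume_R_double]
  congr 1
  set l := Real.sqrt T with hl
  have hl0 : 0 < l := Real.sqrt_pos.mpr hT
  have hl2 : l ^ 2 = T := Real.sq_sqrt hT.le
  rw [lintegral_scale hl0]
  have h1 : ∀ u : ℝ, ∫⁻ v in Ioi (0:ℝ),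
      ENNReal.ofReal (4 + 4 * (l * u) ^ 2 * (v ^ 2 + 1)) *
        ENNReal.ofReal (T - (l * u) ^ 2 - 2 * v ^ 2) =
      ENNReal.ofReal l * ∫⁻ v in Ioi (0:ℝ),
        ENNReal.ofReal (4 + 4 * (l * u) ^ 2 * ((l * v) ^ 2 + 1)) *
        ENNReal.ofReal (T - (l * u) ^ 2 - 2 * (l * v) ^ 2) := fun u => lintegral_scale hl0 _
  simp_rw [h1]
  rw [lintegral_const_mul' _ _ ENNReal.ofReal_ne_top, ← mul_assoc,
    ← ENNReal.ofReal_mul hl0.le]
  have h2 : l * l = T := by rw [← hl2]; ring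
  rw [h2]
  have h3 : ∀ u v : ℝ, ENNReal.ofReal (4 + 4 * (l * u) ^ 2 * ((l * v) ^ 2 + 1)) *
        ENNReal.ofReal (T - (l * u) ^ 2 - 2 * (l * v) ^ 2) =
      ENNReal.ofReal (4 * T) * (ENNReal.ofReal 1 * ENNReal.ofReal (1 - u ^ 2 - 2 * v ^ 2)) +
      (ENNReal.ofReal (4 * T ^ 2) *
        (ENNReal.ofReal (u ^ 2) * ENNReal.ofReal (1 - u ^ 2 - 2 * v ^ 2)) +
      ENNReal.ofReal (4 * T ^ 3) *
        (ENNReal.ofReal (u ^ 2 * v ^ 2) * ENNReal.ofReal (1 - u ^ 2 - 2 * v ^ 2))) := by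
    intro u v
    rw [mul_pow, mul_pow, hl2]
    have e1 : T - T * u ^ 2 - 2 * (T * v ^ 2) = T * (1 - u ^ 2 - 2 * v ^ 2) := by ring
    have e2 : ENNReal.ofReal ((4 + 4 * (T * u ^ 2) * (T * v ^ 2 + 1)) * T) =
        ENNReal.ofReal (4 * T) * ENNReal.ofReal 1 + (ENNReal.ofReal (4 * T ^ 2) *
        ENNReal.ofReal (u ^ 2) + ENNReal.ofReal (4 * T ^ 3) * ENNReal.ofReal (u ^ 2 * v ^ 2)) := by
      rw [← ENNReal.ofReal_mul (by positivity),
      ← ENNReal.ofReal_mul (by positivity), ← ENNReal.ofReal_mul (by positivity),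
      ← ENNReal.ofReal_add (by positivity) (by positivity),
      ← ENNReal.ofReal_add (by positivity) (by positivity)]
      congr 1
      ring
    rw [ENNReal.ofReal_mul (by positivity)] at e2
    rw [e1, ENNReal.ofReal_mul hT.le, ← mul_assoc, e2]
    ring
  simp_rw [h3]
  have hm1 : Measurable fun p : ℝ × ℝ =>
      ENNReal.ofReal 1 * ENNReal.ofReal (1 - p.1 ^ 2 - 2 * p.2 ^ 2) := by fun_prop
  have hm2 : Measurable fun p : ℝ × ℝ =>
      ENNReal.ofReal (p.1 ^ 2) * ENNReal.ofReal (1 - p.1 ^ 2 - 2 * p.2 ^ 2) := by fun_prop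
  have hm3 : Measurable fun p : ℝ × ℝ =>
      ENNReal.ofReal (p.1 ^ 2 * p.2 ^ 2) * ENNReal.ofReal (1 - p.1 ^ 2 - 2 * p.2 ^ 2) := by fun_prop
  have h4 : ∀ u : ℝ, ∫⁻ v in Ioi (0:ℝ), (
      ENNReal.ofReal (4 * T) * (ENNReal.ofReal 1 * ENNReal.ofReal (1 - u ^ 2 - 2 * v ^ 2)) +
      (ENNReal.ofReal (4 * T ^ 2) *
        (ENNReal.ofReal (u ^ 2) * ENNReal.ofReal (1 - u ^ 2 - 2 * v ^ 2)) +
      ENNReal.ofReal (4 * T ^ 3) *
        (ENNReal.ofReal (u ^ 2 * v ^ 2) * ENNReal.ofReal (1 - u ^ 2 - 2 * v ^ 2)))) =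
      ENNReal.ofReal (4 * T) * (∫⁻ v in Ioi (0:ℝ),
        (ENNReal.ofReal 1 * ENNReal.ofReal (1 - u ^ 2 - 2 * v ^ 2))) +
      (ENNReal.ofReal (4 * T ^ 2) * (∫⁻ v in Ioi (0:ℝ),
        (ENNReal.ofReal (u ^ 2) * ENNReal.ofReal (1 - u ^ 2 - 2 * v ^ 2))) +
      ENNReal.ofReal (4 * T ^ 3) * (∫⁻ v in Ioi (0:ℝ),
        (ENNReal.ofReal (u ^ 2 * v ^ 2) * ENNReal.ofReal (1 - u ^ 2 - 2 * v ^ 2)))) := by
    intro u
    rw [lintegral_add_left (by fun_prop), lintegral_add_left (by fun_prop)]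
    congr 1
    · exact lintegral_const_mul' _ _ ENNReal.ofReal_ne_top
    · congr 1
      · exact lintegral_const_mul' _ _ ENNReal.ofReal_ne_top
      · exact lintegral_const_mul' _ _ ENNReal.ofReal_ne_top
  simp_rw [h4]
  rw [lintegral_add_left ((hm1.lintegral_prod_right' (ν := volume.restrict (Ioi (0:ℝ)))).const_mul _),
    lintegral_add_left ((hm2.lintegral_prod_right' (ν := volume.restrict (Ioi (0:ℝ)))).const_mul _),
      lintegral_const_mul' _ _ ENNReal.ofReal_ne_top,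
      lintegral_const_mul' _ _ ENNReal.ofReal_ne_top,
      lintegral_const_mul' _ _ ENNReal.ofReal_ne_top]
  unfold J
  have e2 : ENNReal.ofReal (4 * T ^ 2) = ENNReal.ofReal T * ENNReal.ofReal (4 * T) := by
    rw [← ENNReal.ofReal_mul hT.le]; congr 1; ring
  have e3 : ENNReal.ofReal (4 * T ^ 3) = ENNReal.ofReal T * ENNReal.ofReal (4 * T ^ 2) := by
    rw [← ENNReal.ofReal_mul hT.le]; congr 1; ring
  have e4 : ENNReal.ofReal (4 * T ^ 4) = ENNReal.ofReal T * ENNReal.ofReal (4 * T ^ 3) := by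
    rw [← ENNReal.ofReal_mul hT.le]; congr 1; ring
  rw [e4, e3, e2]
  ring

/-- `volume (R T)` is a polynomial in `T > 0`. -/
lemma volume_R_eq : ∃ A B C : ℝ, 0 ≤ A ∧ 0 ≤ B ∧ 0 ≤ C ∧ ∀ T : ℝ, 0 < T →
    volume (R T) = ENNReal.ofReal (A * T ^ 2 + B * T ^ 3 + C * T ^ 4) := by
  have hJ1 : J (fun _ _ => 1) ≠ ⊤ := J_ne_top _ fun _ _ _ _ _ _ => le_rfl
  have hJ2 : J (fun u _ => u ^ 2) ≠ ⊤ := J_ne_top _ fun u v h1 h2 _ _ => by nlinarith
  have hJ3 : J (fun u v => u ^ 2 * v ^ 2) ≠ ⊤ := J_ne_top _ fun u v h1 h2 h3 h4 => by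
    have : u * v < 1 := by nlinarith
    have : 0 < u * v := by positivity
    rw [← mul_pow]; nlinarith
  refine ⟨4 * c0.toReal * (J (fun _ _ => 1)).toReal, 4 * c0.toReal * (J (fun u _ => u ^ 2)).toReal,
    4 * c0.toReal * (J (fun u v => u ^ 2 * v ^ 2)).toReal, by positivity, by positivity,
    by positivity, fun T hT => ?_⟩
  rw [volume_R_poly hT]
  conv_lhs => rw [← ENNReal.ofReal_toReal c0_ne_top, ← ENNReal.ofReal_toReal hJ1,
    ← ENNReal.ofReal_toReal hJ2, ← ENNReal.ofReal_toReal hJ3]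
  rw [← ENNReal.ofReal_mul (by positivity), ← ENNReal.ofReal_mul (by positivity),
    ← ENNReal.ofReal_mul (by positivity), ← ENNReal.ofReal_add (by positivity) (by positivity),
    ← ENNReal.ofReal_add (by positivity) (by positivity), ← ENNReal.ofReal_mul (by positivity)]
  congr 1
  ring


/-! ### The example -/

/-- the function whose graph is the hypersurface -/
noncomputable def F (x : E 5) : ℝ := 1 / (x 0 ^ 2 * x 1) + x 3 ^ 2 / x 0 + x 4 ^ 2 / x 1

/-- the hypersurface -/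
def M : Set (E 5) := {x | 0 < x 0 ∧ 0 < x 1 ∧ x 2 = F x}

/-- the open convex side -/
def K : Set (E 5) := {x | 0 < x 0 ∧ 0 < x 1 ∧ F x < x 2}

/-- the (not normalised) inward normal -/
noncomputable def N (a : E 5) : E 5 :=
  !₂[2 / (a 0 ^ 3 * a 1) + a 3 ^ 2 / a 0 ^ 2, 1 / (a 0 ^ 2 * a 1 ^ 2) + a 4 ^ 2 / a 1 ^ 2, 1,
    -(2 * a 3 / a 0), -(2 * a 4 / a 1)]

lemma inner_five (a b c d e : ℝ) (x : E 5) :
    ⟪(!₂[a, b, c, d, e] : E 5), x⟫ = a * x 0 + b * x 1 + c * x 2 + d * x 3 + e * x 4 := by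
  simp [PiLp.inner_apply, Fin.sum_univ_five]
  ring

/-- the excess -/
noncomputable def Bd (a x : E 5) : ℝ :=
  (x 3 - a 3 / a 0 * x 0) ^ 2 / x 0 + (x 4 - a 4 / a 1 * x 1) ^ 2 / x 1 +
    (1 / (a 0 ^ 2 * a 1)) * h (x 0 / a 0) (x 1 / a 1)

lemma h_nonneg {x y : ℝ} (hx : 0 < x) (hy : 0 < y) : 0 ≤ h x y := by
  unfold h; positivity

lemma Bd_nonneg {a x : E 5} (ha0 : 0 < a 0) (ha1 : 0 < a 1) (hx0 : 0 < x 0) (hx1 : 0 < x 1) :
    0 ≤ Bd a x := by
  unfold Bd
  have := h_nonneg (div_pos hx0 ha0) (div_pos hx1 ha1)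
  positivity

lemma eq_one_of_h {x y : ℝ} (hx : 0 < x) (hy : 0 < y) (hh : h x y = 0) : x = 1 ∧ y = 1 := by
  unfold h at hh
  have h1 : 0 ≤ (1 - x * y) ^ 2 / (x ^ 2 * y) := by positivity
  have h2 : 0 ≤ 2 * (x - 1) ^ 2 / x := by positivity
  have h3 : 2 * (x - 1) ^ 2 / x = 0 := by linarith
  have h4 : (1 - x * y) ^ 2 / (x ^ 2 * y) = 0 := by linarith
  have hx1 : x = 1 := by
    rw [div_eq_zero_iff] at h3
    rcases h3 with h3 | h3
    · nlinarith
    · exact absurd h3 hx.ne'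
  subst hx1
  refine ⟨rfl, ?_⟩
  rw [div_eq_zero_iff] at h4
  rcases h4 with h4 | h4
  · nlinarith
  · simp only [one_pow, one_mul] at h4
    exact absurd h4 hy.ne'

/-- key identity -/
lemma inner_N {a x : E 5} (ha : a ∈ M) (hx0 : 0 < x 0) (hx1 : 0 < x 1) :
    ⟪N a, x - a⟫ = x 2 - F x + Bd a x := by
  obtain ⟨ha0, ha1, ha2⟩ := ha
  unfold N
  rw [inner_five]
  simp only [PiLp.sub_apply]
  rw [ha2]
  unfold F Bd h
  field_simp
  ring

lemma inner_N_M {a x : E 5} (ha : a ∈ M) (hx : x ∈ M) : ⟪N a, x - a⟫ = Bd a x := by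
  obtain ⟨hx0, hx1, hx2⟩ := hx
  rw [inner_N ha hx0 hx1, hx2]; ring

lemma Bd_pos {a x : E 5} (ha : a ∈ M) (hx : x ∈ M) (hne : x ≠ a) : 0 < Bd a x := by
  obtain ⟨ha0, ha1, ha2⟩ := ha
  obtain ⟨hx0, hx1, hx2⟩ := hx
  rcases (Bd_nonneg ha0 ha1 hx0 hx1).lt_or_eq with h1 | h1
  · exact h1
  · exfalso
    apply hne
    have hh := h_nonneg (div_pos hx0 ha0) (div_pos hx1 ha1)
    unfold Bd at h1
    have t1 : 0 ≤ (x 3 - a 3 / a 0 * x 0) ^ 2 / x 0 := by positivity
    have t2 : 0 ≤ (x 4 - a 4 / a 1 * x 1) ^ 2 / x 1 := by positivity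
    have hk : 0 < 1 / (a 0 ^ 2 * a 1) := by positivity
    have t3 : 0 ≤ (1 / (a 0 ^ 2 * a 1)) * h (x 0 / a 0) (x 1 / a 1) := by positivity
    have e1 : (x 3 - a 3 / a 0 * x 0) ^ 2 / x 0 = 0 := by linarith
    have e2 : (x 4 - a 4 / a 1 * x 1) ^ 2 / x 1 = 0 := by linarith
    have e3 : (1 / (a 0 ^ 2 * a 1)) * h (x 0 / a 0) (x 1 / a 1) = 0 := by linarith
    have e4 : h (x 0 / a 0) (x 1 / a 1) = 0 := by
      rcases mul_eq_zero.mp e3 with h | h
      · exact absurd h hk.ne'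
      · exact h
    obtain ⟨f0, f1⟩ := eq_one_of_h (div_pos hx0 ha0) (div_pos hx1 ha1) e4
    rw [div_eq_one_iff_eq ha0.ne'] at f0
    rw [div_eq_one_iff_eq ha1.ne'] at f1
    rw [div_eq_zero_iff, or_iff_left hx0.ne', sq_eq_zero_iff, f0, div_mul_cancel₀ _ ha0.ne'] at e1
    rw [div_eq_zero_iff, or_iff_left hx1.ne', sq_eq_zero_iff, f1, div_mul_cancel₀ _ ha1.ne'] at e2
    have f3 : x 3 = a 3 := by linarith
    have f4 : x 4 = a 4 := by linarith
    have f2 : x 2 = a 2 := by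
      rw [hx2, ha2]; unfold F; rw [f0, f1, f3, f4]
    ext i
    fin_cases i
    · exact f0
    · exact f1
    · exact f2
    · exact f3
    · exact f4

lemma N_two (a : E 5) : N a 2 = 1 := by
  simp [N]

lemma N_ne_zero (a : E 5) : N a ≠ 0 := by
  intro h
  have h1 := N_two a
  rw [h] at h1
  simp at h1

lemma norm_N_pos (a : E 5) : 0 < ‖N a‖ := norm_pos_iff.mpr (N_ne_zero a)

/-- the unit normal -/
noncomputable def nu (a : E 5) : E 5 := ‖N a‖⁻¹ • N a

lemma norm_nu (a : E 5) : ‖nu a‖ = 1 := by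
  unfold nu
  rw [norm_smul, norm_inv, norm_norm, inv_mul_cancel₀ (norm_N_pos a).ne']

lemma inner_nu (a w : E 5) : ⟪nu a, w⟫ = ⟪N a, w⟫ / ‖N a‖ := by
  unfold nu
  rw [real_inner_smul_left]; field_simp

lemma mem_hyperplane_nu {a x : E 5} {t : ℝ} :
    x ∈ hyperplane a (nu a) t ↔ ⟪N a, x - a⟫ = ‖N a‖ * t := by
  unfold hyperplane
  rw [mem_ofPred_eq, inner_nu, div_eq_iff (norm_N_pos a).ne', mul_comm t]

/-- the polynomial equation -/
def G (x : E 5) : ℝ := x 0 * (x 0 * x 1 * x 2 - x 1 * x 3 ^ 2 - x 0 * x 4 ^ 2) - 1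

lemma G_eq {x : E 5} (hx0 : 0 < x 0) (hx1 : 0 < x 1) :
    G x = x 0 ^ 2 * x 1 * (x 2 - F x) := by
  unfold G F
  field_simp
  ring

lemma isOpen_D : IsOpen {x : E 5 | 0 < x 0 ∧ 0 < x 1} := by
  have h0 : IsOpen {x : E 5 | 0 < x 0} := isOpen_lt continuous_const (by fun_prop)
  have h1 : IsOpen {x : E 5 | 0 < x 1} := isOpen_lt continuous_const (by fun_prop)
  exact h0.inter h1

lemma hasGradientAt_G {a : E 5} (ha : a ∈ M) :
    HasGradientAt G ((a 0 ^ 2 * a 1) • N a) a := by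
  obtain ⟨ha0, ha1, ha2⟩ := ha
  rw [hasGradientAt_iff_hasFDerivAt]
  have p : ∀ i : Fin 5, HasFDerivAt (fun x : E 5 => x i) (EuclideanSpace.proj i : E 5 →L[ℝ] ℝ) a :=
    fun i => (EuclideanSpace.proj i : E 5 →L[ℝ] ℝ).hasFDerivAt
  have h1 := ((p 0).mul (((((p 0).mul (p 1)).mul (p 2)).sub ((p 1).mul ((p 3).pow 2))).sub
    ((p 0).mul ((p 4).pow 2)))).sub_const 1
  have h2 : HasFDerivAt G _ a := h1
  refine h2.congr_fderiv ?_
  have hp : ∀ (i : Fin 5) (w : E 5), (EuclideanSpace.proj i : E 5 →L[ℝ] ℝ) w = w i :=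
    fun _ _ => rfl
  ext w
  rw [InnerProductSpace.toDual_apply_apply, real_inner_smul_left]
  unfold N
  rw [inner_five]
  simp only [Pi.mul_apply, Pi.sub_apply, add_apply, sub_apply, smul_apply, hp, smul_eq_mul,
    nsmul_eq_mul]
  rw [ha2]
  unfold F
  field_simp
  ring

lemma isUnitNormal {a : E 5} (ha : a ∈ M) : IsUnitNormal M a (nu a) := by
  refine ⟨norm_nu a, {x : E 5 | 0 < x 0 ∧ 0 < x 1}, G, a 0 ^ 2 * a 1 * ‖N a‖, isOpen_D,
    ⟨ha.1, ha.2.1⟩, ?_, ?_, ?_, ?_⟩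
  · apply ContDiff.contDiffOn
    unfold G
    fun_prop
  · have := ha.1
    have := ha.2.1
    have := norm_N_pos a
    positivity
  · have : (a 0 ^ 2 * a 1 * ‖N a‖) • nu a = (a 0 ^ 2 * a 1) • N a := by
      unfold nu
      rw [smul_smul, mul_assoc, mul_inv_cancel₀ (norm_N_pos a).ne', mul_one]
    rw [this]
    exact hasGradientAt_G ha
  · ext x
    simp only [mem_inter_iff, mem_ofPred_eq, M]
    constructor
    · rintro ⟨⟨h0, h1, h2⟩, -⟩
      refine ⟨⟨h0, h1⟩, ?_⟩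
      rw [G_eq h0 h1, h2]; ring
    · rintro ⟨⟨h0, h1⟩, h2⟩
      refine ⟨⟨h0, h1, ?_⟩, h0, h1⟩
      rw [G_eq h0 h1] at h2
      have : 0 < x 0 ^ 2 * x 1 := by positivity
      rcases mul_eq_zero.mp h2 with h | h
      · exact absurd h this.ne'
      · linarith

lemma isInwardNormal {a : E 5} (ha : a ∈ M) : IsInwardNormal M a (nu a) := by
  refine ⟨isUnitNormal ha, fun x hx hne => ?_⟩
  rw [inner_nu, inner_N_M ha hx]
  exact div_pos (Bd_pos ha hx hne) (norm_N_pos a)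


/-! ### Convexity and topology -/

lemma K_eq : K = {x : E 5 | 0 < x 0 ∧ 0 < x 1 ∧ 0 < G x} := by
  ext x
  simp only [K, mem_ofPred_eq]
  constructor
  · rintro ⟨h0, h1, h2⟩
    refine ⟨h0, h1, ?_⟩
    rw [G_eq h0 h1]
    have : 0 < x 2 - F x := by linarith
    positivity
  · rintro ⟨h0, h1, h2⟩
    refine ⟨h0, h1, ?_⟩
    rw [G_eq h0 h1] at h2
    have : 0 < x 0 ^ 2 * x 1 := by positivity
    have := pos_of_mul_pos_right h2 this.le
    linarith

lemma continuous_G : Continuous G := by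
  unfold G; fun_prop

lemma isOpen_K : IsOpen K := by
  rw [K_eq]
  have h0 : IsOpen {x : E 5 | 0 < x 0} := isOpen_lt continuous_const (by fun_prop)
  have h1 : IsOpen {x : E 5 | 0 < x 1} := isOpen_lt continuous_const (by fun_prop)
  have h2 : IsOpen {x : E 5 | 0 < G x} := isOpen_lt continuous_const continuous_G
  exact h0.inter (h1.inter h2)

lemma pos_of_G {x : E 5} (h0 : 0 ≤ x 0) (h1 : 0 ≤ x 1) (h2 : 0 ≤ G x) : 0 < x 0 ∧ 0 < x 1 := by
  constructor
  · rcases h0.lt_or_eq with h | h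
    · exact h
    · unfold G at h2
      rw [← h] at h2
      norm_num at h2
  · rcases h1.lt_or_eq with h | h
    · exact h
    · unfold G at h2
      rw [← h] at h2
      nlinarith [mul_nonneg (mul_nonneg h0 h0) (sq_nonneg (x 4))]

lemma closure_K_subset : closure K ⊆ {x : E 5 | 0 < x 0 ∧ 0 < x 1 ∧ F x ≤ x 2} := by
  have h1 : closure K ⊆ {x : E 5 | 0 ≤ x 0 ∧ 0 ≤ x 1 ∧ 0 ≤ G x} := by
    refine closure_minimal ?_ ?_
    · rw [K_eq]
      rintro x ⟨h0, h1, h2⟩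
      exact ⟨h0.le, h1.le, h2.le⟩
    · have h0 : IsClosed {x : E 5 | 0 ≤ x 0} := isClosed_le continuous_const (by fun_prop)
      have h1 : IsClosed {x : E 5 | 0 ≤ x 1} := isClosed_le continuous_const (by fun_prop)
      have h2 : IsClosed {x : E 5 | 0 ≤ G x} := isClosed_le continuous_const continuous_G
      exact h0.inter (h1.inter h2)
  intro x hx
  obtain ⟨h0, h1, h2⟩ := h1 hx
  obtain ⟨h0', h1'⟩ := pos_of_G h0 h1 h2
  refine ⟨h0', h1', ?_⟩
  rw [G_eq h0' h1'] at h2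
  have : 0 < x 0 ^ 2 * x 1 := by positivity
  have := nonneg_of_mul_nonneg_right h2 this
  linarith

lemma M_eq : M = {x : E 5 | 0 ≤ x 0 ∧ 0 ≤ x 1 ∧ G x = 0} := by
  ext x
  simp only [M, mem_ofPred_eq]
  constructor
  · rintro ⟨h0, h1, h2⟩
    refine ⟨h0.le, h1.le, ?_⟩
    rw [G_eq h0 h1, h2]; ring
  · rintro ⟨h0, h1, h2⟩
    obtain ⟨h0', h1'⟩ := pos_of_G h0 h1 h2.ge
    refine ⟨h0', h1', ?_⟩
    rw [G_eq h0' h1'] at h2
    have : 0 < x 0 ^ 2 * x 1 := by positivity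
    rcases mul_eq_zero.mp h2 with h | h
    · exact absurd h this.ne'
    · linarith

lemma isClosed_M : IsClosed M := by
  rw [M_eq]
  have h0 : IsClosed {x : E 5 | 0 ≤ x 0} := isClosed_le continuous_const (by fun_prop)
  have h1 : IsClosed {x : E 5 | 0 ≤ x 1} := isClosed_le continuous_const (by fun_prop)
  have h2 : IsClosed {x : E 5 | G x = 0} := isClosed_eq continuous_G continuous_const
  exact h0.inter (h1.inter h2)

/-- vertical unit vector -/
noncomputable def e2 : E 5 := !₂[0, 0, 1, 0, 0]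

lemma inner_N_e2 (a : E 5) : ⟪N a, e2⟫ = 1 := by
  unfold N
  rw [inner_five]
  simp [e2]

lemma F_add_e2 (x : E 5) (s : ℝ) : F (x + s • e2) = F x := by
  simp [F, e2]

lemma convex_K : Convex ℝ K := by
  intro x hx y hy α β hα hβ hαβ
  obtain ⟨hx0, hx1, hx2⟩ := hx
  obtain ⟨hy0, hy1, hy2⟩ := hy
  set z := α • x + β • y with hz
  have hz0 : 0 < z 0 := by
    have : z 0 = α * x 0 + β * y 0 := by simp [hz]
    rw [this]
    rcases hα.lt_or_eq with h | h
    · have := mul_pos h hx0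
      have := mul_nonneg hβ hy0.le
      linarith
    · have hβ1 : β = 1 := by linarith
      rw [← h, hβ1]; linarith
  have hz1 : 0 < z 1 := by
    have : z 1 = α * x 1 + β * y 1 := by simp [hz]
    rw [this]
    rcases hα.lt_or_eq with h | h
    · have := mul_pos h hx1
      have := mul_nonneg hβ hy1.le
      linarith
    · have hβ1 : β = 1 := by linarith
      rw [← h, hβ1]; linarith
  set a := z + (F z - z 2) • e2 with ha
  have ha0 : a 0 = z 0 := by simp [ha, e2]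
  have ha1 : a 1 = z 1 := by simp [ha, e2]
  have haM : a ∈ M := by
    refine ⟨by rw [ha0]; exact hz0, by rw [ha1]; exact hz1, ?_⟩
    rw [ha, F_add_e2]
    simp [e2]
  have ha0' : 0 < a 0 := haM.1
  have ha1' : 0 < a 1 := haM.2.1
  have h1 : 0 < ⟪N a, x - a⟫ := by
    rw [inner_N haM hx0 hx1]
    have := Bd_nonneg ha0' ha1' hx0 hx1
    linarith
  have h2 : 0 < ⟪N a, y - a⟫ := by
    rw [inner_N haM hy0 hy1]
    have := Bd_nonneg ha0' ha1' hy0 hy1
    linarith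
  have h3 : ⟪N a, z - a⟫ = z 2 - F z := by
    have : z - a = (z 2 - F z) • e2 := by
      rw [ha, sub_add_cancel_left, ← neg_smul]; congr 1; ring
    rw [this, real_inner_smul_right, inner_N_e2, mul_one]
  have h4 : ⟪N a, z - a⟫ = α * ⟪N a, x - a⟫ + β * ⟪N a, y - a⟫ := by
    have : z - a = α • (x - a) + β • (y - a) := by
      have e : a = α • a + β • a := by rw [← add_smul, hαβ, one_smul]
      rw [smul_sub, smul_sub, hz]
      nth_rewrite 1 [e]
      abel
    rw [this, inner_add_right, real_inner_smul_right, real_inner_smul_right]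
  refine ⟨hz0, hz1, ?_⟩
  have h5 : 0 < α * ⟪N a, x - a⟫ + β * ⟪N a, y - a⟫ := by
    rcases hα.lt_or_eq with h | h
    · have := mul_pos h h1
      have := mul_nonneg hβ h2.le
      linarith
    · have hβ1 : β = 1 := by linarith
      rw [← h, hβ1]; linarith
  linarith

lemma convex_hyperplane (a v : E 5) (t : ℝ) : Convex ℝ (hyperplane a v t) := by
  intro x hx y hy α β hα hβ hαβ
  unfold hyperplane at *
  simp only [mem_ofPred_eq] at *
  have : α • x + β • y - a = α • (x - a) + β • (y - a) := by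
    have e : a = α • a + β • a := by rw [← add_smul, hαβ, one_smul]
    rw [smul_sub, smul_sub]
    nth_rewrite 1 [e]
    abel
  rw [this, inner_add_right, real_inner_smul_right, real_inner_smul_right, hx, hy, ← add_mul,
    hαβ, one_mul]

lemma isClosed_hyperplane (a v : E 5) (t : ℝ) : IsClosed (hyperplane a v t) := by
  unfold hyperplane
  exact isClosed_eq (by fun_prop) continuous_const

lemma M_subset_closure_K : M ⊆ closure K := by
  intro x hx
  obtain ⟨h0, h1, h2⟩ := hx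
  rw [mem_closure_iff_seq_limit]
  refine ⟨fun n : ℕ => x + ((1:ℝ) / (n + 1)) • e2, fun n => ?_, ?_⟩
  · refine ⟨?_, ?_, ?_⟩
    · simpa [e2] using h0
    · simpa [e2] using h1
    · rw [F_add_e2, ← h2]
      simp [e2]
      positivity
  · have h3 : Filter.Tendsto (fun n : ℕ => (1:ℝ) / (n + 1)) Filter.atTop (𝓝 0) :=
      tendsto_one_div_add_atTop_nhds_zero_nat
    have h4 := (h3.smul_const e2).const_add x
    simpa using h4

lemma isConnected_M : IsConnected M := by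
  have hM : M = (fun z : ℝ × ℝ × ℝ × ℝ => (!₂[z.1, z.2.1,
      1 / (z.1 ^ 2 * z.2.1) + z.2.2.1 ^ 2 / z.1 + z.2.2.2 ^ 2 / z.2.1, z.2.2.1, z.2.2.2] : E 5)) ''
      (Ioi 0 ×ˢ Ioi 0 ×ˢ univ ×ˢ univ) := by
    ext x
    constructor
    · rintro ⟨h0, h1, h2⟩
      refine ⟨(x 0, x 1, x 3, x 4), ⟨h0, h1, mem_univ _, mem_univ _⟩, ?_⟩
      ext i
      fin_cases i
      · rfl
      · rfl
      · exact h2.symm
      · rfl
      · rfl
    · rintro ⟨z, ⟨h0, h1, -, -⟩, rfl⟩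
      exact ⟨h0, h1, rfl⟩
  rw [hM]
  refine IsConnected.image ?_ _ ?_
  · refine isConnected_Ioi.prod (isConnected_Ioi.prod (isConnected_univ.prod isConnected_univ))
  · rintro z ⟨h0, h1, -, -⟩
    have h0' : z.1 ≠ 0 := (mem_Ioi.mp h0).ne'
    have h1' : z.2.1 ≠ 0 := (mem_Ioi.mp h1).ne'
    have h2' : z.1 ^ 2 * z.2.1 ≠ 0 := by positivity
    apply ContinuousAt.continuousWithinAt
    refine (PiLp.continuous_toLp 2 (fun _ : Fin 5 => ℝ)).continuousAt.comp
      (continuousAt_pi.mpr fun i => ?_)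
    fin_cases i
    · exact continuousAt_fst
    · exact (continuous_fst.comp continuous_snd).continuousAt
    · have c1 : ContinuousAt (fun z : ℝ × ℝ × ℝ × ℝ => 1 / (z.1 ^ 2 * z.2.1)) z :=
        ContinuousAt.div (by fun_prop) (by fun_prop) h2'
      have c2 : ContinuousAt (fun z : ℝ × ℝ × ℝ × ℝ => z.2.2.1 ^ 2 / z.1) z :=
        ContinuousAt.div (by fun_prop) (by fun_prop) h0'
      have c3 : ContinuousAt (fun z : ℝ × ℝ × ℝ × ℝ => z.2.2.2 ^ 2 / z.2.1) z :=
        ContinuousAt.div (by fun_prop) (by fun_prop) h1'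
      exact (c1.add c2).add c3
    · exact (by fun_prop : Continuous fun z : ℝ × ℝ × ℝ × ℝ => z.2.2.1).continuousAt
    · exact (by fun_prop : Continuous fun z : ℝ × ℝ × ℝ × ℝ => z.2.2.2).continuousAt

/-! ### Parametrisation of the sections -/

/-- scale -/
noncomputable def kap (a : E 5) : ℝ := 1 / (a 0 ^ 2 * a 1)

/-- third coordinate of a point of the hyperplane -/
noncomputable def third (a : E 5) (τ x0 x1 x3 x4 : ℝ) : ℝ :=
  a 2 + τ - ((2 / (a 0 ^ 3 * a 1) + a 3 ^ 2 / a 0 ^ 2) * (x0 - a 0) +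
    (1 / (a 0 ^ 2 * a 1 ^ 2) + a 4 ^ 2 / a 1 ^ 2) * (x1 - a 1) +
    (-(2 * a 3 / a 0)) * (x3 - a 3) + (-(2 * a 4 / a 1)) * (x4 - a 4))

/-- parametrisation of the hyperplane at height `τ` -/
noncomputable def Phi (a : E 5) (τ : ℝ) (z : ℝ × ℝ × ℝ × ℝ) : E 5 :=
  !₂[a 0 * z.1, a 1 * z.2.1, third a τ (a 0 * z.1) (a 1 * z.2.1)
      (a 3 * z.1 + Real.sqrt (a 0 * kap a) * z.2.2.1)
      (a 4 * z.2.1 + Real.sqrt (a 1 * kap a) * z.2.2.2),
    a 3 * z.1 + Real.sqrt (a 0 * kap a) * z.2.2.1,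
    a 4 * z.2.1 + Real.sqrt (a 1 * kap a) * z.2.2.2]

lemma inner_N_third (a : E 5) (τ x0 x1 x3 x4 : ℝ) :
    ⟪N a, (!₂[x0, x1, third a τ x0 x1 x3 x4, x3, x4] : E 5) - a⟫ = τ := by
  unfold N third
  rw [inner_five]
  simp only [PiLp.sub_apply]
  simp
  ring

lemma eq_third {a x : E 5} {τ : ℝ} (h : ⟪N a, x - a⟫ = τ) :
    x 2 = third a τ (x 0) (x 1) (x 3) (x 4) := by
  unfold N at h
  rw [inner_five] at h
  simp only [PiLp.sub_apply] at h
  unfold third
  linarith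

lemma Bd_Phi {a : E 5} (ha0 : 0 < a 0) (ha1 : 0 < a 1) (τ : ℝ) {z : ℝ × ℝ × ℝ × ℝ}
    (h0 : 0 < z.1) (h1 : 0 < z.2.1) :
    Bd a (Phi a τ z) = kap a * (z.2.2.1 ^ 2 / z.1 + z.2.2.2 ^ 2 / z.2.1 + h z.1 z.2.1) := by
  have hk : 0 < kap a := by unfold kap; positivity
  have s0 : Real.sqrt (a 0 * kap a) ^ 2 = a 0 * kap a := Real.sq_sqrt (by positivity)
  have s1 : Real.sqrt (a 1 * kap a) ^ 2 = a 1 * kap a := Real.sq_sqrt (by positivity)
  have c0 : (Phi a τ z) 0 = a 0 * z.1 := rfl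
  have c1 : (Phi a τ z) 1 = a 1 * z.2.1 := rfl
  have c3 : (Phi a τ z) 3 = a 3 * z.1 + Real.sqrt (a 0 * kap a) * z.2.2.1 := rfl
  have c4 : (Phi a τ z) 4 = a 4 * z.2.1 + Real.sqrt (a 1 * kap a) * z.2.2.2 := rfl
  unfold Bd
  rw [c0, c1, c3, c4]
  have e3 : a 3 * z.1 + Real.sqrt (a 0 * kap a) * z.2.2.1 - a 3 / a 0 * (a 0 * z.1) =
      Real.sqrt (a 0 * kap a) * z.2.2.1 := by field_simp; ring
  have e4 : a 4 * z.2.1 + Real.sqrt (a 1 * kap a) * z.2.2.2 - a 4 / a 1 * (a 1 * z.2.1) =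
      Real.sqrt (a 1 * kap a) * z.2.2.2 := by field_simp; ring
  have e5 : a 0 * z.1 / a 0 = z.1 := by field_simp
  have e6 : a 1 * z.2.1 / a 1 = z.2.1 := by field_simp
  rw [e3, e4, e5, e6, mul_pow, mul_pow, s0, s1]
  have : 1 / (a 0 ^ 2 * a 1) = kap a := rfl
  rw [this]
  field_simp

lemma section_eq {a : E 5} (ha : a ∈ M) (τ : ℝ) :
    K ∩ {x | ⟪N a, x - a⟫ = τ} = Phi a τ '' (R (τ / kap a)) := by
  have ha0 := ha.1
  have ha1 := ha.2.1
  have hk : 0 < kap a := by unfold kap; positivity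
  have s0 : 0 < Real.sqrt (a 0 * kap a) := Real.sqrt_pos.mpr (by positivity)
  have s1 : 0 < Real.sqrt (a 1 * kap a) := Real.sqrt_pos.mpr (by positivity)
  ext x
  constructor
  · rintro ⟨⟨hx0, hx1, hx2⟩, hx⟩
    have hx : ⟪N a, x - a⟫ = τ := hx
    set z : ℝ × ℝ × ℝ × ℝ := (x 0 / a 0, x 1 / a 1,
      (x 3 - a 3 * (x 0 / a 0)) / Real.sqrt (a 0 * kap a),
      (x 4 - a 4 * (x 1 / a 1)) / Real.sqrt (a 1 * kap a)) with hz
    have f0 : a 0 * z.1 = x 0 := by rw [hz]; simp only; field_simp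
    have f1 : a 1 * z.2.1 = x 1 := by rw [hz]; simp only; field_simp
    have f3 : a 3 * z.1 + Real.sqrt (a 0 * kap a) * z.2.2.1 = x 3 := by
      rw [hz]; simp only; field_simp; ring
    have f4 : a 4 * z.2.1 + Real.sqrt (a 1 * kap a) * z.2.2.2 = x 4 := by
      rw [hz]; simp only; field_simp; ring
    have hPhi : Phi a τ z = x := by
      unfold Phi
      rw [f0, f1, f3, f4]
      ext i
      fin_cases i
      · rfl
      · rfl
      · exact (eq_third hx).symm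
      · rfl
      · rfl
    have hz0 : 0 < z.1 := div_pos hx0 ha0
    have hz1 : 0 < z.2.1 := div_pos hx1 ha1
    refine ⟨z, ⟨hz0, hz1, ?_⟩, hPhi⟩
    have hB := Bd_Phi ha0 ha1 τ hz0 hz1
    rw [hPhi] at hB
    rw [inner_N ha hx0 hx1] at hx
    rw [lt_div_iff₀ hk]
    nlinarith
  · rintro ⟨z, ⟨hz0, hz1, hz2⟩, rfl⟩
    have hin : ⟪N a, Phi a τ z - a⟫ = τ := inner_N_third a τ _ _ _ _
    have hB := Bd_Phi ha0 ha1 τ hz0 hz1
    have p0 : 0 < (Phi a τ z) 0 := mul_pos ha0 hz0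
    have p1 : 0 < (Phi a τ z) 1 := mul_pos ha1 hz1
    refine ⟨⟨p0, p1, ?_⟩, hin⟩
    rw [inner_N ha p0 p1, hB] at hin
    rw [lt_div_iff₀ hk] at hz2
    nlinarith

/-- the linear part of `Phi` -/
noncomputable def Lam (a : E 5) : (ℝ × ℝ × ℝ × ℝ) →ₗ[ℝ] E 5 where
  toFun z := Phi a 0 z - Phi a 0 0
  map_add' z w := by
    ext i
    fin_cases i <;> simp [Phi, third] <;> ring
  map_smul' c z := by
    ext i
    fin_cases i <;> simp [Phi, third] <;> ring

lemma Phi_eq (a : E 5) (τ : ℝ) (z : ℝ × ℝ × ℝ × ℝ) : Phi a τ z = Phi a τ 0 + Lam a z := by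
  have : Lam a z = Phi a 0 z - Phi a 0 0 := rfl
  rw [this]
  ext i
  fin_cases i <;> simp [Phi, third] <;> ring

lemma measure_Lam (a : E 5) : ∃ c : ℝ, 0 ≤ c ∧ ∀ S : Set (ℝ × ℝ × ℝ × ℝ), MeasurableSet S →
    (μHE[4] : Measure (E 5)) (Lam a '' S) = ENNReal.ofReal c * volume S := by
  have hfr : Module.finrank ℝ (E 4) = Module.finrank ℝ (ℝ × ℝ × ℝ × ℝ) := by simp
  let e : E 4 ≃L[ℝ] (ℝ × ℝ × ℝ × ℝ) := ContinuousLinearEquiv.ofFinrankEq hfr
  let f : E 4 →ₗ[ℝ] E 5 := (Lam a).comp (e : E 4 →ₗ[ℝ] (ℝ × ℝ × ℝ × ℝ))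
  have i2 : (volume : Measure (ℝ × ℝ)).IsAddHaarMeasure :=
    Measure.prod.instIsAddHaarMeasure volume volume
  have i3 : (volume : Measure (ℝ × ℝ × ℝ)).IsAddHaarMeasure :=
    Measure.prod.instIsAddHaarMeasure volume volume
  have i4 : (volume : Measure (ℝ × ℝ × ℝ × ℝ)).IsAddHaarMeasure :=
    Measure.prod.instIsAddHaarMeasure volume volume
  have i5 : (Measure.map e (volume : Measure (E 4))).IsAddHaarMeasure :=
    e.isAddHaarMeasure_map volume
  have hμ := Measure.isAddLeftInvariant_eq_smul (Measure.map e (volume : Measure (E 4))) volume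
  set k := Measure.addHaarScalarFactor (Measure.map e (volume : Measure (E 4))) volume
  have hf : 0 ≤ f.normDet := f.normDet_nonneg
  refine ⟨f.normDet * k, by positivity, fun S hS => ?_⟩
  have h1 : Lam a '' S = f '' (e ⁻¹' S) := by
    ext x
    constructor
    · rintro ⟨z, hz, rfl⟩
      exact ⟨e.symm z, by simpa using hz, by simp [f]⟩
    · rintro ⟨z, hz, rfl⟩
      exact ⟨e z, hz, rfl⟩
  have h2 := f.euclideanHausdorffMeasure_image_eq_normDet_mul_volume (e ⁻¹' S)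
  have h3 : Module.finrank ℝ (E 4) = 4 := by simp
  rw [h3] at h2
  have h4 : volume (e ⁻¹' S) = k * volume S := by
    rw [← Measure.map_apply e.continuous.measurable hS, hμ]
    rfl
  rw [h1, h2, h4, ENNReal.ofReal_mul hf, mul_assoc]
  simp

lemma measure_section {a : E 5} (ha : a ∈ M) : ∃ c : ℝ, 0 ≤ c ∧ ∀ τ : ℝ,
    (μHE[4] : Measure (E 5)) (K ∩ {x | ⟪N a, x - a⟫ = τ}) =
      ENNReal.ofReal c * volume (R (τ / kap a)) := by
  obtain ⟨c, hc, h⟩ := measure_Lam a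
  refine ⟨c, hc, fun τ => ?_⟩
  rw [section_eq ha, ← h _ (measurableSet_R _)]
  have h1 : Phi a τ '' R (τ / kap a) = (fun x => Phi a τ 0 + x) '' (Lam a '' R (τ / kap a)) := by
    rw [image_image]
    congr 1
    ext1 z
    exact Phi_eq a τ z
  rw [h1]
  exact (isometry_add_left (Phi a τ 0)).euclideanHausdorffMeasure_image _

lemma exists_poly {a : E 5} (ha : a ∈ M) : ∃ P : Polynomial ℝ, ∀ t : ℝ, 0 < t →
    (μHE[4] : Measure (E 5)) (K ∩ hyperplane a (nu a) t) = ENNReal.ofReal (P.eval t) := by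
  obtain ⟨c, hc, h⟩ := measure_section ha
  obtain ⟨A, B, C, hA, hB, hC, hvol⟩ := volume_R_eq
  have ha0 := ha.1
  have ha1 := ha.2.1
  have hk : 0 < kap a := by unfold kap; positivity
  have hN := norm_N_pos a
  set m := ‖N a‖ / kap a with hm
  have hm0 : 0 < m := div_pos hN hk
  refine ⟨Polynomial.C (c * A * m ^ 2) * Polynomial.X ^ 2 +
    Polynomial.C (c * B * m ^ 3) * Polynomial.X ^ 3 +
    Polynomial.C (c * C * m ^ 4) * Polynomial.X ^ 4, fun t ht => ?_⟩
  have h1 : K ∩ hyperplane a (nu a) t = K ∩ {x | ⟪N a, x - a⟫ = ‖N a‖ * t} := by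
    congr 1
    ext x
    exact mem_hyperplane_nu
  have h2 : ‖N a‖ * t / kap a = m * t := by rw [hm]; ring
  rw [h1, h, h2, hvol _ (by positivity), ← ENNReal.ofReal_mul hc]
  congr 1
  simp
  ring

/-! ### Boundedness -/

lemma R_subset {T : ℝ} (hT : 0 < T) : R T ⊆ Icc (0:ℝ) (T + 4) ×ˢ Icc (0:ℝ) (2 * T + 4) ×ˢ
    Icc (-(T * (T + 4) + 1)) (T * (T + 4) + 1) ×ˢ
    Icc (-(T * (2 * T + 4) + 1)) (T * (2 * T + 4) + 1) := by
  rintro ⟨x, y, p, q⟩ ⟨hx, hy, hz⟩
  simp only at hx hy hz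
  unfold h at hz
  have t1 : 0 ≤ p ^ 2 / x := by positivity
  have t2 : 0 ≤ q ^ 2 / y := by positivity
  have t3 : 0 ≤ (1 - x * y) ^ 2 / (x ^ 2 * y) := by positivity
  have t4 : 0 ≤ 2 * (x - 1) ^ 2 / x := by positivity
  have s1 : p ^ 2 / x < T := by linarith
  have s2 : q ^ 2 / y < T := by linarith
  have s3 : (1 - x * y) ^ 2 / (x ^ 2 * y) < T := by linarith
  have s4 : 2 * (x - 1) ^ 2 / x < T := by linarith
  rw [div_lt_iff₀ (by positivity)] at s1 s2 s3 s4
  have u1 : 2 * x < T + 4 := by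
    by_contra hcon
    have := mul_le_mul_of_nonneg_left (not_lt.mp hcon) hx.le
    nlinarith
  have u2 : 2 < (T + 4) * x := by nlinarith
  have u3 : x ^ 2 * y < T * x ^ 2 + 2 * x := by
    by_contra hcon
    have := mul_le_mul_of_nonneg_left (not_lt.mp hcon) hy.le
    nlinarith
  have u4 : x * y < T * x + 2 := by
    by_contra hcon
    have := mul_le_mul_of_nonneg_left (not_lt.mp hcon) hx.le
    nlinarith
  have u5 : y < 2 * T + 4 := by
    by_contra hcon
    have := mul_le_mul_of_nonneg_left (not_lt.mp hcon) hx.le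
    nlinarith
  have u6 : p ^ 2 < T * (T + 4) := by nlinarith
  have u7 : q ^ 2 < T * (2 * T + 4) := by nlinarith
  refine ⟨⟨hx.le, by nlinarith⟩, ⟨hy.le, u5.le⟩, ⟨?_, ?_⟩, ⟨?_, ?_⟩⟩
  · simp only; nlinarith [sq_nonneg (p + 1)]
  · simp only; nlinarith [sq_nonneg (p - 1)]
  · simp only; nlinarith [sq_nonneg (q + 1)]
  · simp only; nlinarith [sq_nonneg (q - 1)]

lemma exists_compact (T : ℝ) (hT : 0 < T) : ∃ C : Set (ℝ × ℝ × ℝ × ℝ), IsCompact C ∧ R T ⊆ C :=
  ⟨_, isCompact_Icc.prod (isCompact_Icc.prod (isCompact_Icc.prod isCompact_Icc)), R_subset hT⟩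

lemma continuous_Phi (a : E 5) : Continuous fun p : ℝ × (ℝ × ℝ × ℝ × ℝ) => Phi a p.1 p.2 := by
  refine (PiLp.continuous_toLp 2 (fun _ : Fin 5 => ℝ)).comp (continuous_pi fun i => ?_)
  unfold third
  fin_cases i <;> simp <;> fun_prop

lemma bounded_section {a : E 5} (ha : a ∈ M) {τ : ℝ} (hτ : 0 < τ) :
    Bornology.IsBounded (K ∩ {x | ⟪N a, x - a⟫ = τ}) := by
  have ha0 := ha.1
  have ha1 := ha.2.1
  have hk : 0 < kap a := by unfold kap; positivity
  obtain ⟨C, hC, hRC⟩ := exists_compact (τ / kap a) (by positivity)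
  rw [section_eq ha]
  have h1 : Continuous (Phi a τ) := (continuous_Phi a).comp (by fun_prop : Continuous fun z => (τ, z))
  exact (hC.image h1).isBounded.subset (image_mono hRC)

lemma mem_image_of_M {a x : E 5} (ha : a ∈ M) (hx : x ∈ M) {τ' : ℝ} (h' : ⟪N a, x - a⟫ < τ') :
    ∃ z ∈ R (τ' / kap a), Phi a ⟪N a, x - a⟫ z = x := by
  have ha0 := ha.1
  have ha1 := ha.2.1
  have hx0 := hx.1
  have hx1 := hx.2.1
  have hk : 0 < kap a := by unfold kap; positivity
  have s0 : 0 < Real.sqrt (a 0 * kap a) := Real.sqrt_pos.mpr (by positivity)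
  have s1 : 0 < Real.sqrt (a 1 * kap a) := Real.sqrt_pos.mpr (by positivity)
  set τ := ⟪N a, x - a⟫ with hτ
  set z : ℝ × ℝ × ℝ × ℝ := (x 0 / a 0, x 1 / a 1,
    (x 3 - a 3 * (x 0 / a 0)) / Real.sqrt (a 0 * kap a),
    (x 4 - a 4 * (x 1 / a 1)) / Real.sqrt (a 1 * kap a)) with hz
  have f0 : a 0 * z.1 = x 0 := by rw [hz]; simp only; field_simp
  have f1 : a 1 * z.2.1 = x 1 := by rw [hz]; simp only; field_simp
  have f3 : a 3 * z.1 + Real.sqrt (a 0 * kap a) * z.2.2.1 = x 3 := by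
    rw [hz]; simp only; field_simp; ring
  have f4 : a 4 * z.2.1 + Real.sqrt (a 1 * kap a) * z.2.2.2 = x 4 := by
    rw [hz]; simp only; field_simp; ring
  have hPhi : Phi a τ z = x := by
    unfold Phi
    rw [f0, f1, f3, f4]
    ext i
    fin_cases i
    · rfl
    · rfl
    · exact (eq_third hτ.symm).symm
    · rfl
    · rfl
  have hz0 : 0 < z.1 := div_pos hx0 ha0
  have hz1 : 0 < z.2.1 := div_pos hx1 ha1
  refine ⟨z, ⟨hz0, hz1, ?_⟩, hPhi⟩
  have hB := Bd_Phi ha0 ha1 τ hz0 hz1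
  rw [hPhi, ← inner_N_M ha hx] at hB
  rw [lt_div_iff₀ hk]
  nlinarith

lemma compact_cap {a : E 5} (ha : a ∈ M) : IsCompact (M ∩ {x | ⟪N a, x - a⟫ ≤ 1}) := by
  have ha0 := ha.1
  have ha1 := ha.2.1
  have hk : 0 < kap a := by unfold kap; positivity
  have hcl : IsClosed {x : E 5 | ⟪N a, x - a⟫ ≤ 1} := isClosed_le (by fun_prop) continuous_const
  refine Metric.isCompact_of_isClosed_isBounded (isClosed_M.inter hcl) ?_
  obtain ⟨C, hC, hRC⟩ := exists_compact (2 / kap a) (by positivity)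
  refine ((isCompact_Icc (a := (0:ℝ)) (b := 1)).prod hC |>.image (continuous_Phi a)).isBounded.subset ?_
  rintro x ⟨hx, hx1⟩
  have hx1 : ⟪N a, x - a⟫ ≤ 1 := hx1
  have hx0 : 0 ≤ ⟪N a, x - a⟫ := by
    rw [inner_N_M ha hx]
    exact Bd_nonneg ha0 ha1 hx.1 hx.2.1
  obtain ⟨z, hz, hzx⟩ := mem_image_of_M ha hx (τ' := 2) (by linarith)
  exact ⟨(⟪N a, x - a⟫, z), ⟨⟨hx0, hx1⟩, hRC hz⟩, hzx⟩

lemma shrink {a : E 5} (ha : a ∈ M) {r : ℝ} (hr : 0 < r) : ∃ ε > 0, ∀ t, 0 < t → t < ε →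
    M ∩ hyperplane a (nu a) t ⊆ Metric.ball a r := by
  have hN := norm_N_pos a
  have hcomp : IsCompact ((M ∩ {x | ⟪N a, x - a⟫ ≤ 1}) \ Metric.ball a r) :=
    (compact_cap ha).diff Metric.isOpen_ball
  rcases ((M ∩ {x | ⟪N a, x - a⟫ ≤ 1}) \ Metric.ball a r).eq_empty_or_nonempty with hem | hne
  · refine ⟨1 / ‖N a‖, by positivity, fun t ht ht1 x hx => ?_⟩
    by_contra hcon
    have : x ∈ ((M ∩ {x | ⟪N a, x - a⟫ ≤ 1}) \ Metric.ball a r) := by
      refine ⟨⟨hx.1, ?_⟩, hcon⟩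
      have h1 := mem_hyperplane_nu.mp hx.2
      rw [lt_div_iff₀ hN] at ht1
      show ⟪N a, x - a⟫ ≤ 1
      rw [h1]
      linarith
    rw [hem] at this
    exact this
  · obtain ⟨y, hy, hmin⟩ := hcomp.exists_isMinOn hne
      (f := fun x => ⟪N a, x - a⟫) (by fun_prop)
    have hyM : y ∈ M := hy.1.1
    have hya : y ≠ a := by
      rintro rfl
      exact hy.2 (Metric.mem_ball_self hr)
    have hpos : 0 < ⟪N a, y - a⟫ := by
      rw [inner_N_M ha hyM]
      exact Bd_pos ha hyM hya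
    refine ⟨min 1 ⟪N a, y - a⟫ / ‖N a‖, by positivity, fun t ht ht1 x hx => ?_⟩
    by_contra hcon
    have h1 := mem_hyperplane_nu.mp hx.2
    rw [lt_div_iff₀ hN] at ht1
    have h2 : ⟪N a, x - a⟫ < 1 := by
      rw [h1]
      have := min_le_left 1 ⟪N a, y - a⟫
      linarith
    have h3 : ⟪N a, x - a⟫ < ⟪N a, y - a⟫ := by
      nth_rewrite 1 [h1]
      have := min_le_right 1 ⟪N a, y - a⟫
      linarith
    have h4 := hmin (show x ∈ ((M ∩ {x | ⟪N a, x - a⟫ ≤ 1}) \ Metric.ball a r) from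
      ⟨⟨hx.1, h2.le⟩, hcon⟩)
    simp only [mem_ofPred_eq] at h4
    linarith

lemma isDomain {a : E 5} (ha : a ∈ M) {t : ℝ} (ht : 0 < t) :
    IsDomainBoundedBy (hyperplane a (nu a) t) (M ∩ hyperplane a (nu a) t)
      (K ∩ hyperplane a (nu a) t) := by
  have hN := norm_N_pos a
  have hcv : Convex ℝ (K ∩ hyperplane a (nu a) t) :=
    convex_K.inter (convex_hyperplane a (nu a) t)
  set y := a + (‖N a‖ * t) • e2 with hy
  have hyK : y ∈ K := by
    refine ⟨?_, ?_, ?_⟩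
    · simpa [hy, e2] using ha.1
    · simpa [hy, e2] using ha.2.1
    · rw [hy, F_add_e2, ← ha.2.2]
      have : (a + (‖N a‖ * t) • e2) 2 = a 2 + ‖N a‖ * t := by simp [e2]
      rw [this]
      have : 0 < ‖N a‖ * t := by positivity
      linarith
  have hyH : y ∈ hyperplane a (nu a) t := by
    rw [mem_hyperplane_nu, hy, add_sub_cancel_left, real_inner_smul_right, inner_N_e2, mul_one]
  refine ⟨⟨K, isOpen_K, rfl⟩, ⟨⟨y, hyK, hyH⟩, hcv.isPreconnected⟩, ?_, ?_⟩
  · have h1 : K ∩ hyperplane a (nu a) t = K ∩ {x | ⟪N a, x - a⟫ = ‖N a‖ * t} := by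
      congr 1
      ext x
      exact mem_hyperplane_nu
    rw [h1]
    exact bounded_section ha (by positivity)
  · ext x
    constructor
    · rintro ⟨hx1, hx2⟩
      have hxH : x ∈ hyperplane a (nu a) t :=
        (isClosed_hyperplane a (nu a) t).closure_subset_iff.mpr inter_subset_right hx1
      obtain ⟨h0, h1, h2⟩ := closure_K_subset (closure_mono inter_subset_left hx1)
      refine ⟨⟨h0, h1, ?_⟩, hxH⟩
      by_contra hne
      exact hx2 ⟨⟨h0, h1, lt_of_le_of_ne h2 (Ne.symm hne)⟩, hxH⟩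
    · rintro ⟨hxM, hxH⟩
      refine ⟨?_, fun hx => ?_⟩
      · have hseg : openSegment ℝ y x ⊆ K ∩ hyperplane a (nu a) t := by
          intro w hw
          refine ⟨?_, ?_⟩
          · have := convex_K.openSegment_interior_closure_subset_interior
              (by rw [isOpen_K.interior_eq]; exact hyK) (M_subset_closure_K hxM) hw
            rwa [isOpen_K.interior_eq] at this
          · exact (convex_hyperplane a (nu a) t).openSegment_subset hyH hxH hw
        have := closure_mono hseg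
        rw [closure_openSegment] at this
        exact this (right_mem_segment ℝ y x)
      · have h1 := hx.1.2.2
        rw [hxM.2.2] at h1
        exact lt_irrefl _ h1

lemma smooth_convex : IsSmoothStrictlyConvexHypersurface M :=
  ⟨isConnected_M, fun a ha => ⟨nu a, isInwardNormal ha⟩⟩

lemma lpi : LocallyPolynomiallyIntegrable M := by
  intro a ha
  obtain ⟨P, hP⟩ := exists_poly ha
  refine ⟨nu a, isInwardNormal ha, P, 1, one_pos, fun r hr _ => ?_⟩
  obtain ⟨ε, hε, hsh⟩ := shrink ha hr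
  refine ⟨ε, hε, fun t ht htε => ⟨K ∩ hyperplane a (nu a) t, ?_, hP t ht⟩⟩
  have h1 : M ∩ Metric.ball a r ∩ hyperplane a (nu a) t = M ∩ hyperplane a (nu a) t := by
    ext x
    constructor
    · rintro ⟨⟨h1, h2⟩, h3⟩
      exact ⟨h1, h3⟩
    · rintro ⟨h1, h3⟩
      exact ⟨⟨h1, hsh t ht htε ⟨h1, h3⟩⟩, h3⟩
  rw [h1]
  exact isDomain ha ht


/-! ### Quadrics -/

/-- quadratic functions -/
def IsQuad (f : (Fin 5 → ℝ) → ℝ) : Prop :=
  ∃ (A : Fin 5 → Fin 5 → ℝ) (b : Fin 5 → ℝ) (c : ℝ), ∀ x, f x =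
    ∑ i, ∑ j, A i j * (x i * x j) + ∑ i, b i * x i + c

lemma IsQuad.add {f g : (Fin 5 → ℝ) → ℝ} (hf : IsQuad f) (hg : IsQuad g) :
    IsQuad fun x => f x + g x := by
  obtain ⟨A, b, c, hf⟩ := hf
  obtain ⟨A', b', c', hg⟩ := hg
  refine ⟨fun i j => A i j + A' i j, fun i => b i + b' i, c + c', fun x => ?_⟩
  simp only [hf, hg, add_mul, Finset.sum_add_distrib]
  ring

lemma isQuad_const (c : ℝ) : IsQuad fun _ => c :=
  ⟨fun _ _ => 0, fun _ => 0, c, fun x => by simp⟩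

lemma isQuad_lin (c : ℝ) (i : Fin 5) : IsQuad fun x => c * x i := by
  refine ⟨fun _ _ => 0, fun j => if j = i then c else 0, 0, fun x => ?_⟩
  simp

lemma isQuad_mul (c : ℝ) (i j : Fin 5) : IsQuad fun x => c * (x i * x j) := by
  refine ⟨fun k l => if k = i then (if l = j then c else 0) else 0, fun _ => 0, 0, fun x => ?_⟩
  simp [Finset.sum_ite_eq']

lemma exists_single {d : Fin 5 →₀ ℕ} (hd : d ≠ 0) : ∃ i d', d = Finsupp.single i 1 + d' ∧
    d.sum (fun _ e => e) = 1 + d'.sum (fun _ e => e) := by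
  obtain ⟨i, hi⟩ := Finsupp.ne_iff.mp hd
  have hle : Finsupp.single i 1 ≤ d := by
    rw [Finsupp.single_le_iff]
    exact Nat.one_le_iff_ne_zero.mpr (by simpa using hi)
  refine ⟨i, d - Finsupp.single i 1, (add_tsub_cancel_of_le hle).symm, ?_⟩
  conv_lhs => rw [← add_tsub_cancel_of_le hle]
  rw [Finsupp.sum_add_index' (by simp) (by simp), Finsupp.sum_single_index rfl]

lemma isQuad_monomial (d : Fin 5 →₀ ℕ) (hd : d.sum (fun _ e => e) ≤ 2) (c : ℝ) :
    IsQuad fun x => MvPolynomial.eval x (MvPolynomial.monomial d c) := by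
  simp only [MvPolynomial.eval_monomial]
  by_cases h0 : d = 0
  · subst h0
    simpa using isQuad_const c
  obtain ⟨i, d', rfl, hs⟩ := exists_single h0
  rw [hs] at hd
  by_cases h1 : d' = 0
  · subst h1
    convert isQuad_lin c i using 2 with x
    rw [Finsupp.prod_add_index' (by simp) (by intros; rw [pow_add])]
    simp
  obtain ⟨j, d'', rfl, hs'⟩ := exists_single h1
  rw [hs'] at hd
  by_cases h2 : d'' = 0
  · subst h2
    convert isQuad_mul c i j using 2 with x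
    rw [Finsupp.prod_add_index' (by simp) (by intros; rw [pow_add]),
      Finsupp.prod_add_index' (by simp) (by intros; rw [pow_add])]
    simp
  obtain ⟨k, d''', rfl, hs''⟩ := exists_single h2
  omega

lemma isQuad_eval {Q : MvPolynomial (Fin 5) ℝ} (hQ : Q.totalDegree ≤ 2) :
    IsQuad fun x => MvPolynomial.eval x Q := by
  have key : ∀ s : Finset (Fin 5 →₀ ℕ), s ⊆ Q.support →
      IsQuad fun x => MvPolynomial.eval x (∑ d ∈ s, MvPolynomial.monomial d (Q.coeff d)) := by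
    intro s
    induction s using Finset.induction_on with
    | empty => intro _; simpa using isQuad_const 0
    | insert d s hds ih =>
      intro hs
      simp only [Finset.sum_insert hds, map_add]
      apply IsQuad.add
      · apply isQuad_monomial
        exact (MvPolynomial.le_totalDegree (hs (Finset.mem_insert_self d s))).trans hQ
      · exact ih fun x hx => hs (Finset.mem_insert_of_mem hx)
  have := key Q.support subset_rfl
  rwa [MvPolynomial.support_sum_monomial_coeff] at this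

lemma quad_zero {c b0 b1 b2 b3 b4 a00 a11 a22 a33 a44 a01 a02 a03 a04 a12 a13 a14 a23 a24 a34 : ℝ}
    (H : ∀ s t p q z : ℝ, 0 < s → 0 < t → z = 1 / (s ^ 2 * t) + p ^ 2 / s + q ^ 2 / t →
      c + b0 * s + b1 * t + b2 * z + b3 * p + b4 * q + a00 * s ^ 2 + a11 * t ^ 2 + a22 * z ^ 2 +
      a33 * p ^ 2 + a44 * q ^ 2 + a01 * (s * t) + a02 * (s * z) + a03 * (s * p) + a04 * (s * q) +
      a12 * (t * z) + a13 * (t * p) + a14 * (t * q) + a23 * (z * p) + a24 * (z * q) +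
      a34 * (p * q) = 0) :
    c = 0 ∧ b0 = 0 ∧ b1 = 0 ∧ b2 = 0 ∧ b3 = 0 ∧ b4 = 0 ∧ a00 = 0 ∧ a11 = 0 ∧ a22 = 0 ∧ a33 = 0 ∧
    a44 = 0 ∧ a01 = 0 ∧ a02 = 0 ∧ a03 = 0 ∧ a04 = 0 ∧ a12 = 0 ∧ a13 = 0 ∧ a14 = 0 ∧ a23 = 0 ∧
    a24 = 0 ∧ a34 = 0 := by
  -- odd-odd part
  have h1 := H 1 1 1 1 3 (by norm_num) (by norm_num) (by norm_num)
  have h2 := H 1 1 (-1) (-1) 3 (by norm_num) (by norm_num) (by norm_num)
  have h3 := H 1 1 (-1) 1 3 (by norm_num) (by norm_num) (by norm_num)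
  have h4 := H 1 1 1 (-1) 3 (by norm_num) (by norm_num) (by norm_num)
  have r34 : a34 = 0 := by linarith
  -- odd in p
  have g1 : b3 + a03 + a13 + a23 * 3 = 0 := by linarith
  have g1' : b4 + a04 + a14 + a24 * 3 = 0 := by linarith
  have h5 := H 1 1 1 0 2 (by norm_num) (by norm_num) (by norm_num)
  have h6 := H 1 1 (-1) 0 2 (by norm_num) (by norm_num) (by norm_num)
  have g2 : b3 + a03 + a13 + a23 * 2 = 0 := by linarith
  have r23 : a23 = 0 := by linarith
  have h7 := H 1 1 0 1 2 (by norm_num) (by norm_num) (by norm_num)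
  have h8 := H 1 1 0 (-1) 2 (by norm_num) (by norm_num) (by norm_num)
  have g2' : b4 + a04 + a14 + a24 * 2 = 0 := by linarith
  have r24 : a24 = 0 := by linarith
  have h9 := H 2 1 1 0 (3/4) (by norm_num) (by norm_num) (by norm_num)
  have h10 := H 2 1 (-1) 0 (3/4) (by norm_num) (by norm_num) (by norm_num)
  have g3 : b3 + a03 * 2 + a13 = 0 := by linarith
  have h11 := H 1 2 1 0 (3/2) (by norm_num) (by norm_num) (by norm_num)
  have h12 := H 1 2 (-1) 0 (3/2) (by norm_num) (by norm_num) (by norm_num)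
  have g4 : b3 + a03 + a13 * 2 = 0 := by linarith
  have r03 : a03 = 0 := by linarith
  have r13 : a13 = 0 := by linarith
  have r3 : b3 = 0 := by linarith
  have h13 := H 2 1 0 1 (5/4) (by norm_num) (by norm_num) (by norm_num)
  have h14 := H 2 1 0 (-1) (5/4) (by norm_num) (by norm_num) (by norm_num)
  have g5 : b4 + a04 * 2 + a14 = 0 := by linarith
  have h15 := H 1 2 0 1 1 (by norm_num) (by norm_num) (by norm_num)
  have h16 := H 1 2 0 (-1) 1 (by norm_num) (by norm_num) (by norm_num)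
  have g6 : b4 + a04 + a14 * 2 = 0 := by linarith
  have r04 : a04 = 0 := by linarith
  have r14 : a14 = 0 := by linarith
  have r4 : b4 = 0 := by linarith
  clear h1 h2 h3 h4 g1 g1' h5 h6 g2 h7 h8 g2' h9 h10 g3 h11 h12 g4 h13 h14 g5 h15 h16 g6
  subst r34 r23 r24 r03 r13 r3 r04 r14 r4
  have k0 := H 1 1 0 0 1 (by norm_num) (by norm_num) (by norm_num)
  have k1 := H 1 1 1 0 2 (by norm_num) (by norm_num) (by norm_num)
  have k2 := H 1 1 2 0 5 (by norm_num) (by norm_num) (by norm_num)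
  have r22 : a22 = 0 := by linarith
  clear k2
  subst r22
  have m1 : b2 + a02 + a12 + a33 = 0 := by linarith
  have k1' := H 1 1 0 1 2 (by norm_num) (by norm_num) (by norm_num)
  have m2 : b2 + a02 + a12 + a44 = 0 := by linarith
  clear k0 k1 k1'
  have k3 := H 2 1 0 0 (1/4) (by norm_num) (by norm_num) (by norm_num)
  have h9 := H 2 1 1 0 (3/4) (by norm_num) (by norm_num) (by norm_num)
  have m3 : b2 + a02 * 2 + a12 + a33 * 2 = 0 := by linarith
  have h13 := H 2 1 0 1 (5/4) (by norm_num) (by norm_num) (by norm_num)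
  have m4 : b2 + a02 * 2 + a12 + a44 = 0 := by linarith
  clear k3 h9 h13
  have k4 := H 1 2 0 0 (1/2) (by norm_num) (by norm_num) (by norm_num)
  have h11 := H 1 2 1 0 (3/2) (by norm_num) (by norm_num) (by norm_num)
  have m5 : b2 + a02 + a12 * 2 + a33 = 0 := by linarith
  clear k4 h11
  have r02 : a02 = 0 := by linarith
  have r12 : a12 = 0 := by linarith
  have r33 : a33 = 0 := by linarith
  have r2 : b2 = 0 := by linarith
  have r44 : a44 = 0 := by linarith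
  clear m1 m2 m3 m4 m5
  subst r02 r12 r33 r2 r44
  have k0 := H 1 1 0 0 1 (by norm_num) (by norm_num) (by norm_num)
  have k3 := H 2 1 0 0 (1/4) (by norm_num) (by norm_num) (by norm_num)
  have k4 := H 1 2 0 0 (1/2) (by norm_num) (by norm_num) (by norm_num)
  have k5 := H 2 2 0 0 (1/8) (by norm_num) (by norm_num) (by norm_num)
  have k6 := H 3 1 0 0 (1/9) (by norm_num) (by norm_num) (by norm_num)
  have k7 := H 1 3 0 0 (1/3) (by norm_num) (by norm_num) (by norm_num)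
  have r00 : a00 = 0 := by linarith
  have r11 : a11 = 0 := by linarith
  have r01 : a01 = 0 := by linarith
  have r0 : b0 = 0 := by linarith
  have r1 : b1 = 0 := by linarith
  have rc : c = 0 := by linarith
  exact ⟨rc, r0, r1, rfl, rfl, rfl, r00, r11, rfl, rfl, rfl, r01, rfl, rfl, rfl, rfl, rfl, rfl, rfl,
    rfl, rfl⟩


lemma not_quadric (Q : MvPolynomial (Fin 5) ℝ) (hQ : Q.totalDegree ≤ 2)
    (h0 : ∀ x ∈ M, MvPolynomial.eval (fun i => x i) Q = 0) : Q = 0 := by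
  obtain ⟨A, b, c, hf⟩ := isQuad_eval hQ
  simp only [Fin.sum_univ_five] at hf
  have H : ∀ s t p q z : ℝ, 0 < s → 0 < t → z = 1 / (s ^ 2 * t) + p ^ 2 / s + q ^ 2 / t →
      MvPolynomial.eval ![s, t, z, p, q] Q = 0 := by
    intro s t p q z hs ht hz
    have h1 := h0 (!₂[s, t, z, p, q] : E 5) ⟨hs, ht, hz⟩
    convert h1 using 2
  have h2 := quad_zero (c := c) (b0 := b 0) (b1 := b 1) (b2 := b 2) (b3 := b 3) (b4 := b 4)
    (a00 := A 0 0) (a11 := A 1 1) (a22 := A 2 2) (a33 := A 3 3) (a44 := A 4 4)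
    (a01 := A 0 1 + A 1 0) (a02 := A 0 2 + A 2 0) (a03 := A 0 3 + A 3 0) (a04 := A 0 4 + A 4 0)
    (a12 := A 1 2 + A 2 1) (a13 := A 1 3 + A 3 1) (a14 := A 1 4 + A 4 1) (a23 := A 2 3 + A 3 2)
    (a24 := A 2 4 + A 4 2) (a34 := A 3 4 + A 4 3) (by
      intro s t p q z hs ht hz
      have h3 := hf ![s, t, z, p, q]
      rw [H s t p q z hs ht hz] at h3
      simp only [Matrix.cons_val] at h3
      linarith)
  obtain ⟨hc, h0', h1, h2, h3, h4, h00, h11, h22, h33, h44, h01, h02, h03, h04, h12, h13, h14, h23,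
    h24, h34⟩ := h2
  apply MvPolynomial.funext
  intro x
  rw [hf x, map_zero, hc, h0', h1, h2, h3, h4, h00, h11, h22, h33, h44]
  linear_combination (x 0 * x 1) * h01 + (x 0 * x 2) * h02 + (x 0 * x 3) * h03 +
    (x 0 * x 4) * h04 + (x 1 * x 2) * h12 + (x 1 * x 3) * h13 + (x 1 * x 4) * h14 +
    (x 2 * x 3) * h23 + (x 2 * x 4) * h24 + (x 3 * x 4) * h34

/-- There is a smooth strictly convex locally polynomially integrable hypersurface in `ℝ⁵` on
which no nonzero real polynomial of degree at most two vanishes identically. -/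
theorem result : ∃ M : Set (E 5), IsSmoothStrictlyConvexHypersurface M ∧
    LocallyPolynomiallyIntegrable M ∧
    ∀ Q : MvPolynomial (Fin 5) ℝ, Q.totalDegree ≤ 2 →
      (∀ x ∈ M, MvPolynomial.eval (fun i => x i) Q = 0) → Q = 0 :=
  ⟨M, smooth_convex, lpi, not_quadric⟩

end Pool.Agent.Results.MP_bfe3ea_gt.VinbergCone
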